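import Pool.Agent.U23.TP.Defs
import Pool.Agent.W920.FC.T_PT
import Pool.Agent.W920.FC.T_PTITER
import Pool.Agent.W920.FC.T_OUT
import Pool.Agent.H622R3.SM.T_PM

/-!
# The control of the algorithm takes polynomial time
-/

set_option autoImplicit false

namespace Pool.Agent.U23.TP

open Pool.Agent.NPC Pool.Agent.H558R2 Pool.Agent.H622R3.SM Pool.Agent.W920.FC Pool.Agent.U23.LR

section
variable {α : Type} [TEnc α]

lemma rk_upoly {U V : α → List Unit} (hU : Poly U) (hV : Poly V) :
    UPoly (fun a => rk (U a).length (V a).length) := by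
  refine UPoly.of_le (n := fun a => (U a).length) ?_ (UPoly.length hU) fun a => ?_
  · unfold rk
    fun_prop
  · unfold rk
    omega

lemma code_poly {U V : α → List Unit} {γ : α → List ℕ} (hU : Poly U) (hV : Poly V)
    (hγ : Poly γ) : Poly (fun a => code (U a).length (V a).length (γ a)) := by
  unfold code
  refine NPC.Poly.flatMap (F := fun a j =>
    (List.range ((U a).length + ((V a).length + (V a).length))).map fun k =>
      if (γ a).getD j 0 = k then some true else none) (NPC.Poly.range_length hU) ?_
  have h1 : UPoly (fun p : α × ℕ => (U p.1).length + ((V p.1).length + (V p.1).length)) :=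
    (UPoly.length (hU.comp (NPC.Poly.fst NPC.Poly.id))).add
      ((UPoly.length (hV.comp (NPC.Poly.fst NPC.Poly.id))).add
        (UPoly.length (hV.comp (NPC.Poly.fst NPC.Poly.id))))
  refine NPC.Poly.map (F := fun (p : α × ℕ) k =>
    if (γ p.1).getD p.2 0 = k then some true else none) h1.range ?_
  fun_prop

lemma qry_poly {U V : α → List Unit} {γ : α → List ℕ} (hU : Poly U) (hV : Poly V)
    (hγ : Poly γ) : Poly (fun a => qry (U a).length (V a).length (γ a)) := by
  unfold qry
  exact NPC.Poly.pair (TPM.pMinorProg hU hV (code_poly hU hV hγ) (NPC.Poly.const 0))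
    (NPC.Poly.const _)

lemma gam_poly {U V : α → List Unit} {r k : α → ℕ} {I : α → List ℕ} (hU : Poly U) (hV : Poly V)
    (hr : Poly r) (hI : Poly I) (hk : Poly k) :
    Poly (fun a => gam (U a).length (V a).length (r a) (I a) (k a)) := by
  unfold gam
  refine NPC.Poly.map (F := fun a j => if j < r a then
    (if j = k a then (U a).length + ((V a).length + (V a).length)
      else (U a).length + (V a).length + (I a).getD j 0) else j) (NPC.Poly.range_length hU) ?_
  fun_prop

lemma qs_poly {U V : α → List Unit} {r : α → ℕ} {I : α → List ℕ} (hU : Poly U) (hV : Poly V)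
    (hr : UPoly r) (hI : Poly I) :
    Poly (fun a => qs (U a).length (V a).length (r a) (I a)) := by
  unfold qs
  refine NPC.Poly.map (F := fun a k => qry (U a).length (V a).length
    (gam (U a).length (V a).length (r a) (I a) k)) (hr.add (UPoly.const 1)).range ?_
  have h1 : Poly (fun p : α × ℕ => p.1) := NPC.Poly.fst NPC.Poly.id
  exact qry_poly (U := fun p : α × ℕ => U p.1) (V := fun p => V p.1)
    (γ := fun p => gam (U p.1).length (V p.1).length (r p.1) (I p.1) p.2) (hU.comp h1)
    (hV.comp h1) (gam_poly (U := fun p : α × ℕ => U p.1) (V := fun p => V p.1)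
      (r := fun p => r p.1) (I := fun p => I p.1) (hU.comp h1) (hV.comp h1) (hr.toPoly.comp h1)
      (hI.comp h1) (NPC.Poly.snd NPC.Poly.id))

lemma hit_poly {r : α → ℕ} {o : α → List Outcome} (hr : UPoly r) (ho : Poly o) :
    Poly (fun a => hitL (r a) (o a)) := by
  have hr' := hr.toPoly
  unfold hitL
  refine NPC.Poly.reverse (NPC.Poly.filter (p := fun a k => decide ((r a - k) % 2 = 0) &&
    decide ((o a).getD k none = (o a).getD (r a) none)) hr.range ?_)
  fun_prop

lemma shift_poly {r k : α → ℕ} {I : α → List ℕ} (hr : UPoly r) (hk : Poly k) (hI : Poly I) :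
    Poly (fun a => shiftL (r a) (k a) (I a)) := by
  unfold shiftL
  refine NPC.Poly.map (F := fun a l => if (decide (k a ≤ l) &&
    decide ((I a).getD l 0 + k a = (I a).getD (k a) 0 + l)) = true then (I a).getD l 0 + 1
    else (I a).getD l 0) hr.range ?_
  fun_prop

lemma clip_poly {r n : α → ℕ} {I I' : α → List ℕ} (hr : Poly r) (hn : Poly n) (hI : Poly I)
    (hI' : Poly I') : Poly (fun a => clip (r a) (n a) (I a) (I' a)) := by
  unfold clip
  fun_prop

lemma nxt_poly {r n : α → ℕ} {I : α → List ℕ} {o : α → List Outcome} (hr : UPoly r)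
    (hn : Poly n) (hI : Poly I) (ho : Poly o) :
    Poly (fun a => nxt (r a) (n a) (I a) (o a)) := by
  unfold nxt
  refine NPC.Poly.optGetD (NPC.Poly.optMap_fp
    (h := fun a k => clip (r a) (n a) (I a) (shiftL (r a) k (I a)))
    (NPC.Poly.head? (hit_poly hr ho)) ?_) hI
  have h1 : Poly (fun p : α × ℕ => p.1) := NPC.Poly.fst NPC.Poly.id
  exact clip_poly (r := fun p : α × ℕ => r p.1) (n := fun p => n p.1) (I := fun p => I p.1)
    (I' := fun p => shiftL (r p.1) p.2 (I p.1)) (hr.toPoly.comp h1) (hn.comp h1) (hI.comp h1)
    (shift_poly (r := fun p : α × ℕ => r p.1) (k := fun p => p.2) (I := fun p => I p.1)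
      (UPoly.comp hr h1) (NPC.Poly.snd NPC.Poly.id) (hI.comp h1))

lemma ok_poly {r : α → ℕ} {o : α → List Outcome} (hr : UPoly r) (ho : Poly o) :
    Poly (fun a => okL (r a) (o a)) := by
  have hr' := hr.toPoly
  unfold okL
  refine NPC.Poly.all (p := fun a k => !decide ((o a).getD k none = (o a).getD (r a) none))
    hr.range ?_
  fun_prop

lemma stp_pt {U V : α → List Unit} {I : α → List ℕ} (hU : Poly U) (hV : Poly V) (hI : Poly I) :
    PT (fun a => stp (U a).length (V a).length (I a)) := by
  have hP := t_PT
  have hr := rk_upoly hU hV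
  unfold stp
  refine hP.2.1 α (List Outcome) (List ℕ)
    (fun a => batch (qs (U a).length (V a).length (rk (U a).length (V a).length) (I a)))
    (fun a o => ret (nxt (rk (U a).length (V a).length) (V a).length (I a) o))
    (hP.2.2 _ _ (qs_poly hU hV hr hI)) ?_
  apply hP.1
  have h1 : Poly (fun p : α × List Outcome => p.1) := NPC.Poly.fst NPC.Poly.id
  exact nxt_poly (r := fun p : α × List Outcome => rk (U p.1).length (V p.1).length)
    (n := fun p => (V p.1).length) (I := fun p => I p.1) (o := fun p => p.2)
    (UPoly.comp hr h1) (NPC.Poly.length (hV.comp h1)) (hI.comp h1) (NPC.Poly.snd NPC.Poly.id)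

/-- the states have bounded size -/
def Inv (r i : ℕ) (y : List ℕ) : Prop := y.length = r ∧ ∀ x ∈ y, x ≤ r + i

lemma getD_le' {y : List ℕ} {i : ℕ} (h : ∀ x ∈ y, x ≤ i) (l : ℕ) : y.getD l 0 ≤ i := by
  rw [List.getD_eq_getElem?_getD]
  rcases lt_or_ge l y.length with hl | hl
  · rw [List.getElem?_eq_getElem hl, Option.getD_some]
    exact h _ (List.getElem_mem hl)
  · rw [List.getElem?_eq_none hl]
    exact Nat.zero_le _

lemma inv_nxt {r n i : ℕ} {y : List ℕ} (o : List Outcome) (h : Inv r i y) :
    Inv r (i + 1) (nxt r n y o) := by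
  have h0 : Inv r (i + 1) y := ⟨h.1, fun x hx => by
    have := h.2 x hx
    omega⟩
  unfold nxt
  cases (hitL r o).head? with
  | none => exact h0
  | some k =>
    show Inv r (i + 1) (clip r n y (shiftL r k y))
    unfold clip
    split_ifs
    · refine ⟨by simp [shiftL], fun x hx => ?_⟩
      unfold shiftL at hx
      obtain ⟨l, -, rfl⟩ := List.mem_map.1 hx
      have := getD_le' h.2 l
      split_ifs <;> omega
    · exact h0

lemma out_stp (hO : S_OUT) {m n : ℕ} {s c : List ℕ} (h : Out (stp m n s) c) :
    ∃ o, c = nxt (rk m n) n s o := by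
  unfold stp at h
  obtain ⟨o, -, ho⟩ := hO.2.1 _ _ _ _ _ h
  exact ⟨o, hO.1 _ _ _ ho⟩

lemma inv_sz {r i : ℕ} {s : List ℕ} (h : Inv r i s) : sz s ≤ r * (4 * (r + i) + 2) + 1 := by
  have h1 := sz_le_length_mul s (4 * (r + i) + 1) (fun a ha => by
    have h2 := sz_nat_le a
    have h3 := NPC.Poly.size_le_self a
    have h4 := h.2 a ha
    omega)
  rw [h.1] at h1
  exact h1

lemma tp_pt {U V : α → List Unit} (hU : Poly U) (hV : Poly V) :
    PT (fun a => tp (U a).length (V a).length) := by
  have hP := t_PT
  have hI := t_PTITER
  have hO := t_OUT.1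
  have hr := rk_upoly hU hV
  have hn : UPoly (fun a => rk (U a).length (V a).length * (V a).length) :=
    hr.mul (UPoly.length hV)
  unfold tp
  refine hP.2.1 α (List ℕ) Bool
    (fun a => iter (stp (U a).length (V a).length) (rk (U a).length (V a).length * (V a).length)
      (List.range (rk (U a).length (V a).length)))
    (fun a I => bnd (batch (qs (U a).length (V a).length (rk (U a).length (V a).length) I))
      fun o => ret (okL (rk (U a).length (V a).length) o)) ?_ ?_
  · refine hI α (List ℕ) (fun a => stp (U a).length (V a).length)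
      (fun a => rk (U a).length (V a).length * (V a).length)
      (fun a => List.range (rk (U a).length (V a).length)) ?_ hn hr.range ?_ ?_
    · have h1 : Poly (fun p : α × List ℕ => p.1) := NPC.Poly.fst NPC.Poly.id
      exact stp_pt (U := fun p : α × List ℕ => U p.1) (V := fun p => V p.1) (I := fun p => p.2)
        (hU.comp h1) (hV.comp h1) (NPC.Poly.snd NPC.Poly.id)
    · intro a s
      unfold stp
      apply hO.2.2.2.2.1
      · exact hO.2.2.2.2.2.1 _
      · intro o
        exact hO.2.2.2.1 _ _
    · obtain ⟨p, hp⟩ := NPC.Poly.sz_le (show UPoly (fun a => rk (U a).length (V a).length *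
        (4 * (rk (U a).length (V a).length + rk (U a).length (V a).length * (V a).length) + 2) + 1)
        from ((hr.mul (((UPoly.const 4).mul (hr.add hn)).add (UPoly.const 2))).add
          (UPoly.const 1)))
      refine ⟨p, fun a i s hi hs => ?_⟩
      have hinv : ∀ i s, Out (iter (stp (U a).length (V a).length) i
          (List.range (rk (U a).length (V a).length))) s →
          Inv (rk (U a).length (V a).length) i s := by
        intro i
        induction i with
        | zero =>
          intro s hs
          rw [hO.1 _ _ s hs]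
          refine ⟨List.length_range, fun x hx => ?_⟩
          have := List.mem_range.1 hx
          omega
        | succ i ih =>
          intro s hs
          obtain ⟨b, hb, hc⟩ := hO.2.2.1 _ _ i _ s hs
          obtain ⟨o, ho⟩ := out_stp hO hc
          rw [ho]
          exact inv_nxt o (ih b hb)
      refine (inv_sz (hinv i s hs)).trans ?_
      have h1 := hp a
      beta_reduce at h1
      have h2 := length_lt_sz (List.replicate (rk (U a).length (V a).length *
        (4 * (rk (U a).length (V a).length + rk (U a).length (V a).length * (V a).length) + 2) + 1)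
        ())
      rw [List.length_replicate] at h2
      have h3 : rk (U a).length (V a).length * (4 * (rk (U a).length (V a).length + i) + 2) ≤
          rk (U a).length (V a).length * (4 * (rk (U a).length (V a).length +
            rk (U a).length (V a).length * (V a).length) + 2) :=
        Nat.mul_le_mul_left _ (by omega)
      omega
  · have h1 : Poly (fun p : α × List ℕ => p.1) := NPC.Poly.fst NPC.Poly.id
    refine hP.2.1 (α × List ℕ) (List Outcome) Bool
      (fun p => batch (qs (U p.1).length (V p.1).length (rk (U p.1).length (V p.1).length) p.2))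
      (fun p o => ret (okL (rk (U p.1).length (V p.1).length) o))
      (hP.2.2 _ _ (qs_poly (U := fun p : α × List ℕ => U p.1) (V := fun p => V p.1)
        (I := fun p => p.2) (hU.comp h1) (hV.comp h1) (UPoly.comp hr h1)
        (NPC.Poly.snd NPC.Poly.id))) ?_
    apply hP.1
    have h2 : Poly (fun p : (α × List ℕ) × List Outcome => p.1.1) :=
      NPC.Poly.fst (NPC.Poly.fst NPC.Poly.id)
    exact ok_poly (r := fun p : (α × List ℕ) × List Outcome =>
      rk (U p.1.1).length (V p.1.1).length) (UPoly.comp hr h2) (NPC.Poly.snd NPC.Poly.id)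

end

/-- The control of the algorithm takes polynomial time. -/
theorem control : PolyControl (algOf tp) := by
  refine t_OUT.2 tp ?_
  exact tp_pt (α := List Unit × List Unit) (U := fun p => p.1) (V := fun p => p.2)
    (NPC.Poly.fst NPC.Poly.id) (NPC.Poly.snd NPC.Poly.id)

/-- The algorithm asks no question to an oracle. -/
theorem oracleFree : OracleFree (algOf tp) := by
  intro m n h
  unfold algOf
  cases tp m n h <;> simp

end Pool.Agent.U23.TP
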