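import Pool.Agent.U23.TP.Prog

/-!
# The class is decided
-/

set_option autoImplicit false

namespace Pool.Agent.U23.TP

open Pool.Agent.H558R2 Pool.Agent.H622R3.SM Pool.Agent.W920.FC Pool.Agent.U23.LR

section
variable {m n r : ℕ} {A : Matrix (Fin m) (Fin n) ℝ} {b : Fin m → ℝ} {P : ℕ → ℕ → ℝ} {c : ℕ → ℝ}

lemma qs_vals (hm1 : 1 ≤ m) (hm : m = r + r + n)
    (hA : ∀ (i : Fin m) (j : Fin n), A i j = if (i : ℕ) < r then P i j
      else if (i : ℕ) < r + r then - P ((i : ℕ) - r) j else if (i : ℕ) = r + r + j then 1 else 0)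
    (hb : ∀ i : Fin m, b i = if (i : ℕ) < r then c i
      else if (i : ℕ) < r + r then - c ((i : ℕ) - r) else 0)
    {I : List ℕ} (hI : ∀ l < r, fn I l < n) :
    List.Forall₂ (HasVal (start A b) (Gq A b)) (qs m n r I)
      ((List.range (r + 1)).map fun k => valN (cols r P) (rhs r c) I k) := by
  unfold qs
  rw [List.forall₂_map_left_iff, List.forall₂_map_right_iff, List.forall₂_same]
  intro k _
  have h1 := qry_val hm1 A b (gam m n r I k)
  rwa [val_eq hm hA hb hI] at h1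

lemma qs_cost (hm1 : 1 ≤ m) (I : List ℕ) :
    ((qs m n r I).map fun q => q.1.length + 1).sum ≤ (r + 1) * (12 * m ^ 4 + 1) := by
  have h1 : ∀ x ∈ (qs m n r I).map fun q => q.1.length + 1, x ≤ 12 * m ^ 4 + 1 := by
    intro x hx
    rw [List.mem_map] at hx
    obtain ⟨q, hq, rfl⟩ := hx
    unfold qs at hq
    rw [List.mem_map] at hq
    obtain ⟨k, _, rfl⟩ := hq
    have := qry_len hm1 (n := n) (gam m n r I k)
    omega
  have h2 := List.sum_le_card_nsmul _ _ h1
  rw [List.length_map, smul_eq_mul] at h2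
  unfold qs at h2 ⊢
  rwa [List.length_map, List.length_range] at h2

lemma tp_runs (hr : 1 ≤ r) (hrn : r ≤ n) (hm1 : 1 ≤ m) (hm : m = r + r + n)
    (hA : ∀ (i : Fin m) (j : Fin n), A i j = if (i : ℕ) < r then P i j
      else if (i : ℕ) < r + r then - P ((i : ℕ) - r) j else if (i : ℕ) = r + r + j then 1 else 0)
    (hb : ∀ i : Fin m, b i = if (i : ℕ) < r then c i
      else if (i : ℕ) < r + r then - c ((i : ℕ) - r) else 0) :
    Runs (start A b) (Gq A b) (tp m n)
      (okL r (outs (cols r P) (rhs r c) (st (cols r P) (rhs r c) n (r * n))))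
      (r * n * ((r + 1) * (12 * m ^ 4 + 1)) + (r + 1) * (12 * m ^ 4 + 1)) := by
  obtain ⟨hBND, hBATCH, hITER, hMONO⟩ := t_TT
  have hrk : rk m n = r := by
    unfold rk
    omega
  have hst : ∀ i, ∀ l < r, fn (st (cols r P) (rhs r c) n i) l < n := fun i =>
    (st_inc hrn i).lt
  have hbat : ∀ i, Runs (start A b) (Gq A b) (batch (qs m n r (st (cols r P) (rhs r c) n i)))
      (outs (cols r P) (rhs r c) (st (cols r P) (rhs r c) n i)) ((r + 1) * (12 * m ^ 4 + 1)) := by
    intro i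
    have h1 := hBATCH (start A b) (Gq A b) _ _ (qs_vals hm1 hm hA hb (hst i))
    have h2 := hMONO _ _ _ (Gq A b) _ _ _ _ (fun _ h => h) (qs_cost hm1 _) h1
    rw [List.map_map] at h2
    exact h2
  have hstep : ∀ i < r * n, Runs (start A b) (Gq A b) (stp m n (st (cols r P) (rhs r c) n i))
      (st (cols r P) (rhs r c) n (i + 1)) ((r + 1) * (12 * m ^ 4 + 1)) := by
    intro i _
    unfold stp
    rw [hrk]
    have h1 := hBND _ _ (start A b) (Gq A b) _
      (fun o => ret (nxt r n (st (cols r P) (rhs r c) n i) o)) _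
      (st (cols r P) (rhs r c) n (i + 1)) _ 0 (hbat i) (Runs.done _ _ _ fun h => rfl)
    exact h1
  have hit := hITER _ (start A b) (Gq A b) (stp m n) (st (cols r P) (rhs r c) n) (r * n) _ hstep
  unfold tp
  rw [hrk]
  refine hBND _ _ _ _ _ _ _ _ _ _ hit ?_
  have h1 := hBND _ _ (start A b) (Gq A b) _
      (fun o => ret (okL r o)) _
      (okL r (outs (cols r P) (rhs r c) (st (cols r P) (rhs r c) n (r * n)))) _ 0 (hbat (r * n))
      (Runs.done _ _ _ fun h => rfl)
  exact h1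

end

/-- the bound -/
noncomputable def pbd : Polynomial ℕ :=
  (Polynomial.X * Polynomial.X + 1) * ((Polynomial.X + 1) * (12 * Polynomial.X ^ 4 + 1)) + 1 +
    30 * Polynomial.X ^ 2

lemma pbd_eval (N : ℕ) : pbd.eval N = (N * N + 1) * ((N + 1) * (12 * N ^ 4 + 1)) + 1 + 30 * N ^ 2 := by
  unfold pbd
  simp

theorem decides : DecidesOn ConeSystem (algOf tp) := by
  refine ⟨pbd, ?_⟩
  intro m n hm1 _ A b hC
  obtain ⟨r, P, c, hr, hrn, hm, hmin, hA, hb⟩ := hC
  have hp : Cheb r n (cols r P) := by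
    intro f hf hfn
    exact hmin f hf hfn
  have hrun := tp_runs hr hrn hm1 hm hA hb
  set ans := okL r (outs (cols r P) (rhs r c) (st (cols r P) (rhs r c) n (r * n))) with hans
  have hcost : r * n * ((r + 1) * (12 * m ^ 4 + 1)) + (r + 1) * (12 * m ^ 4 + 1) + 1 ≤
      pbd.eval (m + n) := by
    rw [pbd_eval]
    have h1 : r * n ≤ (m + n) * (m + n) := Nat.mul_le_mul (by omega) (by omega)
    have h2 : (r + 1) * (12 * m ^ 4 + 1) ≤ ((m + n) + 1) * (12 * (m + n) ^ 4 + 1) := by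
      have h3 : m ^ 4 ≤ (m + n) ^ 4 := Nat.pow_le_pow_left (by omega) 4
      exact Nat.mul_le_mul (by omega) (by omega)
    have h4 := Nat.mul_le_mul (Nat.add_le_add_right h1 1) h2
    nlinarith [h4, Nat.zero_le (30 * (m + n) ^ 2)]
  obtain ⟨nums, steps, h1, h2, h3⟩ := t_RUN tp m n (start A b) (Gq A b) ans _ hrun ∅
    (pbd.eval (m + n)) hcost
  refine ⟨ans, nums, steps, h1, ?_, by omega, ?_⟩
  · rw [hans, ok_iff hr hrn hp, feas_iff hm hA hb]
  · intro A' b' hA' hb' v hv
    obtain ⟨q, h4, h5⟩ := h3 v hv A' b' hA' hb'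
    refine ⟨q, h4, h5.trans ?_⟩
    rw [pbd_eval]
    omega

end Pool.Agent.U23.TP
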