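import Pool.Agent.U23.TP.Defs
import Pool.Agent.W920.FC.T_TT
import Pool.Agent.W920.FC.T_RUN
import Pool.Agent.W920.FC.T_PROJ
import Pool.Agent.H622R3.SM.T_EQ
import Pool.Agent.H622R3.SM.T_ORD
import Pool.Agent.H622R3.SM.T_SMALL
import Pool.Agent.H622R3.SM.T_LEN

/-!
# The run of the algorithm
-/

set_option autoImplicit false

namespace Pool.Agent.U23.TP

open Pool.Agent.H558R2 Pool.Agent.H622R3.SM Pool.Agent.W920.FC Pool.Agent.U23.LR

/-- the numbers computed are rational of small length on rational instances -/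
def Gq {m n : ℕ} (A : Matrix (Fin m) (Fin n) ℝ) (b : Fin m → ℝ) (v : ℝ) : Prop :=
  ∀ (A' : Matrix (Fin m) (Fin n) ℚ) (b' : Fin m → ℚ), (∀ i j, ((A' i j : ℚ) : ℝ) = A i j) →
    (∀ i, ((b' i : ℚ) : ℝ) = b i) → ∃ q : ℚ, (q : ℝ) = v ∧ bitLength q ≤ 30 * inputLength A' b' ^ 2

lemma qry_val {m n : ℕ} (hm : 1 ≤ m) (A : Matrix (Fin m) (Fin n) ℝ) (b : Fin m → ℝ)
    (γ : List ℕ) : HasVal (start A b) (Gq A b) (qry m n γ)
      (dd (wmat A b) (beta m n (code m n γ) 0)) := by
  obtain ⟨h1, h2⟩ := t_EQ m n (code m n γ) 0 (A, b) hm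
  refine ⟨t_ORD m n _ 0 hm, vreg m n (code m n γ) 0 (A, b), h1, fun I hI => ⟨(h2 I hI).1,
    (h2 I hI).2, fun A' b' hA hb => ?_⟩, Or.inr ⟨⟨Op.sub, [11], [3], [10, m - 1]⟩, ?_, rfl⟩, rfl⟩
  · obtain ⟨q, h3, h4⟩ := t_SMALL m n (code m n γ) 0 A' b' hm I hI
    refine ⟨q, ?_, h4⟩
    rw [h3]
    have e1 : (fun i j => ((A' i j : ℚ) : ℝ)) = A := by
      funext i j
      exact hA i j
    have e2 : (fun i => ((b' i : ℚ) : ℝ)) = b := by
      funext i
      exact hb i
    rw [e1, e2]
  · show (⟨Op.sub, [11], [3], [10, m - 1]⟩ : Instr) ∈ minorProg m n (code m n γ) 0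
    simp [minorProg]

lemma qry_len {m n : ℕ} (hm : 1 ≤ m) (γ : List ℕ) : (qry m n γ).1.length ≤ 12 * m ^ 4 :=
  t_LEN m n (code m n γ) 0 hm

lemma colOf_code {m n : ℕ} (γ : List ℕ) {j : ℕ} (hj : j < m) (hγ : γ.getD j 0 ≤ m + (n + n)) :
    colOf m n (code m n γ) 0 j = γ.getD j 0 := by
  have key : ∀ k ∈ List.range (m + (n + n)),
      decide ((code m n γ).getD (0 * (ell m n + 1) + j * (m + (n + n)) + k) none = some true) =
        decide (γ.getD j 0 = k) := by
    intro k hk
    rw [List.mem_range] at hk
    rw [Nat.zero_mul, Nat.zero_add]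
    unfold code
    rw [TPROJ.getD_block (fun j k => if γ.getD j 0 = k then some true else none) none
      (m + (n + n)) m j hj k hk]
    split_ifs with h
    · rw [decide_eq_true h]
      rfl
    · rw [decide_eq_false h]
      rfl
  unfold colOf
  rw [List.filter_congr key, List.head?_filter]
  rcases Nat.lt_or_ge (γ.getD j 0) (m + (n + n)) with h | h
  · have h1 : (List.range (m + (n + n))).find? (fun k => decide (γ.getD j 0 = k)) =
        some (γ.getD j 0) := by
      rw [List.find?_range_eq_some]
      refine ⟨by simp, List.mem_range.2 h, fun i hi => ?_⟩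
      have : γ.getD j 0 ≠ i := by omega
      simp only [this, decide_false, Bool.not_false]
    rw [h1]
    rfl
  · have h1 : (List.range (m + (n + n))).find? (fun k => decide (γ.getD j 0 = k)) = none := by
      rw [List.find?_eq_none]
      intro k hk
      rw [List.mem_range] at hk
      have : γ.getD j 0 ≠ k := by omega
      simp only [this, decide_false]
      exact Bool.false_ne_true
    rw [h1]
    show m + (n + n) = _
    omega

lemma gam_getD {m n r : ℕ} (I : List ℕ) (k : ℕ) {j : ℕ} (hj : j < m) :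
    (gam m n r I k).getD j 0 =
      if j < r then (if j = k then m + (n + n) else m + n + I.getD j 0) else j := by
  unfold gam
  rw [List.getD_eq_getElem?_getD, List.getElem?_map, List.getElem?_range hj]
  rfl

/-- a block triangular determinant -/
lemma det_block {m r : ℕ} (hrm : r ≤ m) (B : Matrix (Fin m) (Fin m) ℝ)
    (h0 : ∀ i j : Fin m, (i : ℕ) < r → r ≤ (j : ℕ) → B i j = 0)
    (h1 : ∀ i j : Fin m, r ≤ (i : ℕ) → r ≤ (j : ℕ) → B i j = if i = j then 1 else 0) :
    B.det = (Matrix.of fun i j : Fin r => B ⟨i, by omega⟩ ⟨j, by omega⟩).det := by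
  obtain ⟨t, rfl⟩ : ∃ t, m = r + t := ⟨m - r, by omega⟩
  rw [← Matrix.det_submatrix_equiv_self (finSumFinEquiv : Fin r ⊕ Fin t ≃ Fin (r + t)) B]
  have e : B.submatrix (finSumFinEquiv : Fin r ⊕ Fin t ≃ Fin (r + t)) finSumFinEquiv =
      Matrix.fromBlocks (Matrix.of fun i j : Fin r => B ⟨i, by omega⟩ ⟨j, by omega⟩) 0
        (Matrix.of fun (i : Fin t) (j : Fin r) => B (Fin.natAdd r i) (Fin.castAdd t j)) 1 := by
    ext i j
    rcases i with i | i <;> rcases j with j | j
    · simp only [Matrix.submatrix_apply, finSumFinEquiv_apply_left, Matrix.fromBlocks_apply₁₁,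
        Matrix.of_apply]
      rfl
    · simp only [Matrix.submatrix_apply, finSumFinEquiv_apply_left, finSumFinEquiv_apply_right,
        Matrix.fromBlocks_apply₁₂, Matrix.zero_apply]
      exact h0 _ _ (by simp) (by simp)
    · simp only [Matrix.submatrix_apply, finSumFinEquiv_apply_left, finSumFinEquiv_apply_right,
        Matrix.fromBlocks_apply₂₁, Matrix.of_apply]
    · simp only [Matrix.submatrix_apply, finSumFinEquiv_apply_right,
        Matrix.fromBlocks_apply₂₂]
      rw [h1 _ _ (by simp) (by simp), Matrix.one_apply]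
      simp
  rw [e, Matrix.det_fromBlocks_zero₁₂, Matrix.det_one, mul_one]

section
variable {m n r : ℕ} {A : Matrix (Fin m) (Fin n) ℝ} {b : Fin m → ℝ} {P : ℕ → ℕ → ℝ} {c : ℕ → ℝ}

/-- the columns of `P` -/
abbrev cols (r : ℕ) (P : ℕ → ℕ → ℝ) : ℕ → Fin r → ℝ := fun j a => P a j

/-- the right-hand side -/
abbrev rhs (r : ℕ) (c : ℕ → ℝ) : Fin r → ℝ := fun a => c a

lemma val_eq (hm : m = r + r + n)
    (hA : ∀ (i : Fin m) (j : Fin n), A i j = if (i : ℕ) < r then P i j
      else if (i : ℕ) < r + r then - P ((i : ℕ) - r) j else if (i : ℕ) = r + r + j then 1 else 0)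
    (hb : ∀ i : Fin m, b i = if (i : ℕ) < r then c i
      else if (i : ℕ) < r + r then - c ((i : ℕ) - r) else 0)
    {I : List ℕ} (hI : ∀ l < r, fn I l < n) {k : ℕ} :
    dd (wmat A b) (beta m n (code m n (gam m n r I k)) 0) =
      valN (cols r P) (rhs r c) I k := by
  have hcol : ∀ j : Fin m, colOf m n (code m n (gam m n r I k)) 0 j =
      if (j : ℕ) < r then (if (j : ℕ) = k then m + (n + n) else m + n + I.getD j 0) else j := by
    intro j
    rw [colOf_code _ j.2, gam_getD I k j.2]
    rw [gam_getD I k j.2]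
    split_ifs with h1 h2
    · omega
    · have := hI j h1
      simp only [fn] at this
      omega
    · omega
  have hun : ∀ (i j : Fin m), r ≤ (j : ℕ) →
      wmat A b i (beta m n (code m n (gam m n r I k)) 0 j) = if i = j then 1 else 0 := by
    intro i j hj
    have h1 := hcol j
    rw [if_neg (by omega)] at h1
    have h2 : colOf m n (code m n (gam m n r I k)) 0 j < m + (n + n) := by
      rw [h1]
      omega
    unfold beta
    rw [dif_pos h2]
    unfold wmat
    simp only
    rw [TEQ.symm_lo _ (by rw [h1]; exact j.2) h2]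
    simp only [colEntry]
    by_cases h3 : i = j
    · rw [if_pos h3, if_pos]
      rw [h3]
      exact Fin.ext h1.symm
    · rw [if_neg h3, if_neg]
      intro h4
      exact h3 (by rw [h4]; exact Fin.ext h1)
  unfold dd
  rw [det_block (show r ≤ m by omega) _ (fun i j hi hj => by
    rw [Matrix.of_apply, hun i j hj, if_neg]
    intro h
    rw [h] at hi
    omega) (fun i j _ hj => by rw [Matrix.of_apply, hun i j hj])]
  have hcolA : ∀ (i j : Fin r), (j : ℕ) ≠ k →
      wmat A b ⟨i, by omega⟩ (beta m n (code m n (gam m n r I k)) 0 ⟨j, by omega⟩) =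
        P i (fn I j) := by
    intro i j hj
    have h1 := hcol ⟨j, by omega⟩
    simp only at h1
    rw [if_pos j.2, if_neg hj] at h1
    have h3 := hI j j.2
    simp only [fn] at h3 ⊢
    have h2 : colOf m n (code m n (gam m n r I k)) 0 j < m + (n + n) := by
      rw [h1]
      omega
    unfold beta
    rw [dif_pos h2]
    unfold wmat
    simp only
    have h4 : colOf m n (code m n (gam m n r I k)) 0 j - m - n < n := by
      rw [h1]
      omega
    rw [TEQ.symm_hi _ (by rw [h1]; omega) h4 h2]
    simp only [colEntry]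
    rw [hA, if_pos i.2]
    have h5 : colOf m n (code m n (gam m n r I k)) 0 j - m - n = I.getD j 0 := by
      rw [h1]
      omega
    simp only [h5]
  unfold valN
  split_ifs with hk
  · unfold cf
    rw [Matrix.cramer_apply]
    have e : (Matrix.of fun i j : Fin r => (Matrix.of fun i j => wmat A b i
        (beta m n (code m n (gam m n r I k)) 0 j)) ⟨i, by omega⟩ ⟨j, by omega⟩) =
        (MI (cols r P) (fn I)).updateCol ⟨k, hk⟩ ((-1 : ℝ) • rhs r c) := by
      ext i j
      rw [Matrix.of_apply, Matrix.of_apply, Matrix.updateCol_apply]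
      by_cases hj : j = ⟨k, hk⟩
      · rw [if_pos hj]
        have h1 := hcol ⟨j, by omega⟩
        simp only at h1
        have hjk : (j : ℕ) = k := congrArg Fin.val hj
        rw [if_pos j.2, if_pos hjk] at h1
        unfold beta
        rw [dif_neg (by rw [h1]; omega)]
        unfold wmat
        simp only
        rw [hb, if_pos i.2]
        simp
      · rw [if_neg hj, hcolA i j fun h => hj (Fin.ext h)]
        rfl
    rw [e, Matrix.det_updateCol_smul, neg_one_mul]
  · have e : (Matrix.of fun i j : Fin r => (Matrix.of fun i j => wmat A b i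
        (beta m n (code m n (gam m n r I k)) 0 j)) ⟨i, by omega⟩ ⟨j, by omega⟩) =
        MI (cols r P) (fn I) := by
      ext i j
      rw [Matrix.of_apply, Matrix.of_apply, hcolA i j (by omega)]
      rfl
    rw [e]

/-- feasibility -/
lemma feas_iff (hm : m = r + r + n)
    (hA : ∀ (i : Fin m) (j : Fin n), A i j = if (i : ℕ) < r then P i j
      else if (i : ℕ) < r + r then - P ((i : ℕ) - r) j else if (i : ℕ) = r + r + j then 1 else 0)
    (hb : ∀ i : Fin m, b i = if (i : ℕ) < r then c i
      else if (i : ℕ) < r + r then - c ((i : ℕ) - r) else 0) :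
    (∃ x : Fin n → ℝ, b ≤ A.mulVec x) ↔
      ∃ x : Fin n → ℝ, (∀ j, 0 ≤ x j) ∧ rhs r c = ∑ j : Fin n, x j • cols r P j := by
  have hrow : ∀ (x : Fin n → ℝ) (i : Fin m), A.mulVec x i =
      if (i : ℕ) < r then ∑ j : Fin n, P i j * x j
      else if (i : ℕ) < r + r then - ∑ j : Fin n, P ((i : ℕ) - r) j * x j
      else ∑ j : Fin n, if (i : ℕ) = r + r + j then x j else 0 := by
    intro x i
    simp only [Matrix.mulVec, dotProduct, hA]
    split_ifs
    · rfl
    · rw [← Finset.sum_neg_distrib]
      exact Finset.sum_congr rfl fun j _ => by ring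
    · exact Finset.sum_congr rfl fun j _ => by split_ifs <;> ring
  refine exists_congr fun x => ?_
  constructor
  · intro h
    refine ⟨fun j => ?_, ?_⟩
    · have h1 := h ⟨r + r + j, by omega⟩
      rw [hrow, hb, if_neg (by simp only; omega), if_neg (by simp only; omega),
        if_neg (by simp only; omega), if_neg (by simp only; omega)] at h1
      rw [Finset.sum_eq_single j] at h1
      · simpa using h1
      · intro l _ hl
        rw [if_neg]
        intro h2
        apply hl
        apply Fin.ext
        simp only at h2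
        omega
      · intro h2
        exact absurd (Finset.mem_univ _) h2
    · funext a
      have h1 := h ⟨a, by omega⟩
      have h2 := h ⟨r + a, by omega⟩
      rw [hrow, hb, if_pos a.2, if_pos a.2] at h1
      have e1 : ¬ ((⟨r + a, by omega⟩ : Fin m) : ℕ) < r := by
        simp only
        omega
      have e2 : ((⟨r + a, by omega⟩ : Fin m) : ℕ) < r + r := by
        simp only
        omega
      rw [hrow, hb] at h2
      simp only [if_neg e1, if_pos e2, Nat.add_sub_cancel_left] at h2
      simp only at h1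
      rw [Finset.sum_apply]
      simp only [Pi.smul_apply, smul_eq_mul]
      have h3 : ∑ j : Fin n, x j * P a j = ∑ j : Fin n, P a j * x j :=
        Finset.sum_congr rfl fun j _ => mul_comm _ _
      show c a = ∑ j : Fin n, x j * P a j
      rw [h3]
      linarith
  · rintro ⟨h1, h2⟩ i
    have h3 : ∀ a : Fin r, c a = ∑ j : Fin n, P a j * x j := by
      intro a
      have h4 := congrFun h2 a
      rw [Finset.sum_apply] at h4
      simp only [Pi.smul_apply, smul_eq_mul] at h4
      rw [show c a = rhs r c a from rfl, h4]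
      exact Finset.sum_congr rfl fun j _ => mul_comm _ _
    rw [hrow, hb]
    split_ifs with h4 h5
    · exact (h3 ⟨i, h4⟩).le
    · have := h3 ⟨i - r, by omega⟩
      simp only at this
      rw [this]
    · refine Finset.sum_nonneg fun j _ => ?_
      split_ifs
      · exact h1 j
      · exact le_refl _

end

end Pool.Agent.U23.TP
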