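import Pool.Agent.U23.TP.Sgn

/-!
# Coordinates with respect to `r` of the vectors, and their signs
-/

set_option autoImplicit false

namespace Pool.Agent.U23.TP

open Finset

/-- The matrix with the columns `p (I i)`. -/
noncomputable def MI {r : ℕ} (p : ℕ → Fin r → ℝ) (I : ℕ → ℕ) : Matrix (Fin r) (Fin r) ℝ :=
  Matrix.of fun (a : Fin r) (i : Fin r) => p (I i) a

/-- The coordinates of `w` with respect to the vectors `p (I i)`, times the determinant. -/
noncomputable def cf {r : ℕ} (p : ℕ → Fin r → ℝ) (I : ℕ → ℕ) (w : Fin r → ℝ) : Fin r → ℝ :=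
  Matrix.cramer (MI p I) w

/-- `I` is increasing on `0, …, r - 1`, with values less than `n`. -/
structure Inc (r n : ℕ) (I : ℕ → ℕ) : Prop where
  mono : ∀ l, l + 1 < r → I l < I (l + 1)
  lt : ∀ l, l < r → I l < n

lemma Inc.add_le {r n : ℕ} {I : ℕ → ℕ} (h : Inc r n I) (a d : ℕ) (hd : a + d < r) :
    I a + d ≤ I (a + d) := by
  induction d with
  | zero => exact le_refl _
  | succ d ih =>
    have h1 := ih (by omega)
    have h2 := h.mono (a + d) (by omega)
    rw [show a + (d + 1) = a + d + 1 by omega]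
    omega

lemma Inc.lt_lt {r n : ℕ} {I : ℕ → ℕ} (h : Inc r n I) {a b : ℕ} (hab : a < b) (hb : b < r) :
    I a < I b := by
  have h1 := h.add_le a (b - a) (by omega)
  rw [show a + (b - a) = b by omega] at h1
  omega

lemma Inc.inj {r n : ℕ} {I : ℕ → ℕ} (h : Inc r n I) {a b : ℕ} (ha : a < r) (hb : b < r)
    (hab : I a = I b) : a = b := by
  rcases lt_trichotomy a b with h1 | h1 | h1
  · have := h.lt_lt h1 hb
    omega
  · exact h1
  · have := h.lt_lt h1 ha
    omega

lemma Inc.le_iff {r n : ℕ} {I : ℕ → ℕ} (h : Inc r n I) {a b : ℕ} (ha : a < r) (hb : b < r) :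
    I a < I b ↔ a < b := by
  constructor
  · intro h1
    by_contra hc
    rcases Nat.lt_or_ge b a with h2 | h2
    · have := h.lt_lt h2 ha
      omega
    · have : a = b := by omega
      rw [this] at h1
      exact lt_irrefl _ h1
  · exact fun h1 => h.lt_lt h1 hb

lemma det_pos {r n : ℕ} {p : ℕ → Fin r → ℝ} (hp : Cheb r n p) {I : ℕ → ℕ} (hI : Inc r n I) :
    0 < (MI p I).det :=
  hp (fun i => I i) (fun _ b hab => hI.lt_lt hab b.2) fun l => hI.lt l l.2

/-- Cramer's rule. -/
lemma cf_sum {r : ℕ} (p : ℕ → Fin r → ℝ) (I : ℕ → ℕ) (w : Fin r → ℝ) :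
    ∑ i : Fin r, cf p I w i • p (I i) = (MI p I).det • w := by
  have h := Matrix.mulVec_cramer (MI p I) w
  rw [← h]
  funext a
  simp only [Finset.sum_apply, Pi.smul_apply, smul_eq_mul, Matrix.mulVec, dotProduct, cf, MI,
    Matrix.of_apply]
  exact Finset.sum_congr rfl fun i _ => mul_comm _ _

lemma cf_fct {r : ℕ} (p : ℕ → Fin r → ℝ) (I : ℕ → ℕ) (w : Fin r → ℝ)
    (ψ : (Fin r → ℝ) →ₗ[ℝ] ℝ) :
    ∑ i : Fin r, cf p I w i * ψ (p (I i)) = (MI p I).det * ψ w := by
  have h := congrArg ψ (cf_sum p I w)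
  rw [map_sum, map_smul] at h
  simpa [smul_eq_mul] using h

lemma cf_self {r : ℕ} (p : ℕ → Fin r → ℝ) (I : ℕ → ℕ) (j i : Fin r) :
    cf p I (p (I j)) i = if i = j then (MI p I).det else 0 := by
  have h1 : p (I j) = (MI p I).mulVec (Pi.single j 1) := by
    rw [Matrix.mulVec_single_one]
    rfl
  unfold cf
  rw [h1, Matrix.cramer_eq_adjugate_mulVec, Matrix.mulVec_mulVec, Matrix.adjugate_mul,
    Matrix.smul_mulVec, Matrix.one_mulVec]
  simp only [Pi.smul_apply, smul_eq_mul, Pi.single_apply]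
  split_ifs <;> simp

lemma cf_lin {r : ℕ} (p : ℕ → Fin r → ℝ) (I : ℕ → ℕ) {κ : Type} (S : Finset κ) (z : κ → ℝ)
    (v : κ → Fin r → ℝ) (k : Fin r) :
    cf p I (∑ l ∈ S, z l • v l) k = ∑ l ∈ S, z l * cf p I (v l) k := by
  unfold cf
  rw [map_sum, Finset.sum_apply]
  refine Finset.sum_congr rfl fun l _ => ?_
  rw [map_smul]
  rfl

/-- the number of elements of `I` with index in `S`, less than `x` -/
def cnt (S : Finset ℕ) (I : ℕ → ℕ) (x : ℕ) : ℕ := (S.filter fun l => I l < x).card

lemma cnt_image {r n : ℕ} {I : ℕ → ℕ} (hI : Inc r n I) {S : Finset ℕ} (hS : S ⊆ range r) (x : ℕ) :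
    ((S.image I).filter fun y => y < x).card = cnt S I x := by
  unfold cnt
  rw [Finset.filter_image, Finset.card_image_of_injOn]
  intro a ha b hb hab
  have ha' := Finset.mem_range.1 (hS (Finset.mem_filter.1 (Finset.mem_coe.1 ha)).1)
  have hb' := Finset.mem_range.1 (hS (Finset.mem_filter.1 (Finset.mem_coe.1 hb)).1)
  exact hI.inj ha' hb' hab

lemma cnt_seg {r n : ℕ} {I : ℕ → ℕ} (hI : Inc r n I) (x : ℕ) {l : ℕ} (hl : l < r) :
    I l < x ↔ l < cnt (range r) I x := by
  constructor
  · intro h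
    have h1 : range (l + 1) ⊆ (range r).filter fun l => I l < x := by
      intro y hy
      rw [Finset.mem_range] at hy
      refine Finset.mem_filter.2 ⟨Finset.mem_range.2 (by omega), ?_⟩
      rcases Nat.lt_or_ge y l with h2 | h2
      · exact (hI.lt_lt h2 hl).trans h
      · rwa [show y = l by omega]
    have h2 := Finset.card_le_card h1
    rw [Finset.card_range] at h2
    unfold cnt
    omega
  · intro h
    by_contra hc
    have h1 : ((range r).filter fun l => I l < x) ⊆ range l := by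
      intro y hy
      rw [Finset.mem_filter, Finset.mem_range] at hy
      rw [Finset.mem_range]
      by_contra hly
      rcases Nat.lt_or_ge l y with h2 | h2
      · exact hc ((hI.lt_lt h2 hy.1).trans hy.2)
      · exact hc (by rw [show l = y by omega]; exact hy.2)
    have h2 := Finset.card_le_card h1
    rw [Finset.card_range] at h2
    unfold cnt at h
    omega

lemma cnt_le (S : Finset ℕ) (I : ℕ → ℕ) (x : ℕ) : cnt S I x ≤ S.card := Finset.card_filter_le _ _

lemma cnt_self {r n : ℕ} {I : ℕ → ℕ} (hI : Inc r n I) {k : ℕ} (hk : k < r) :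
    cnt (range r) I (I k) = k := by
  unfold cnt
  have : ((range r).filter fun l => I l < I k) = range k := by
    ext y
    rw [Finset.mem_filter, Finset.mem_range, Finset.mem_range]
    constructor
    · rintro ⟨h1, h2⟩
      exact (hI.le_iff h1 hk).1 h2
    · intro h1
      exact ⟨by omega, hI.lt_lt h1 hk⟩
  rw [this, Finset.card_range]

lemma cnt_erase (S : Finset ℕ) (I : ℕ → ℕ) (x k : ℕ) (hk : k ∈ S) :
    cnt (S.erase k) I x + (if I k < x then 1 else 0) = cnt S I x := by
  classical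
  unfold cnt
  rw [Finset.filter_erase]
  split_ifs with h
  · rw [Finset.card_erase_of_mem (Finset.mem_filter.2 ⟨hk, h⟩)]
    have : 0 < (S.filter fun l => I l < x).card :=
      Finset.card_pos.2 ⟨k, Finset.mem_filter.2 ⟨hk, h⟩⟩
    omega
  · rw [Finset.erase_eq_of_notMem]
    · rfl
    · intro hc
      exact h (Finset.mem_filter.1 hc).2

/-- `I` consists of pairs of neighbours (and of `0`, if `r` is odd). -/
structure AT (r n : ℕ) (I : ℕ → ℕ) : Prop extends Inc r n I where
  pair : ∀ l, l + 1 < r → (r - l) % 2 = 0 → I (l + 1) = I l + 1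
  zero : r % 2 = 1 → I 0 = 0

/-- the number of elements less than `x ∉ I` has the same parity as `r` -/
lemma AT.parity {r n : ℕ} {I : ℕ → ℕ} (hI : AT r n I) {x : ℕ} (hx : ∀ l < r, I l ≠ x) :
    (r - cnt (range r) I x) % 2 = 0 := by
  set N := cnt (range r) I x with hN
  have hNr : N ≤ r := by
    have := cnt_le (range r) I x
    rwa [Finset.card_range] at this
  by_contra hc
  have h1 : N < r := by
    by_contra h2
    rw [show r - N = 0 by omega] at hc
    exact hc rfl
  rcases Nat.eq_zero_or_pos N with h0 | h0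
  · have h2 : r % 2 = 1 := by
      rw [h0] at hc
      omega
    have h3 := hI.zero h2
    have h4 : ¬ I 0 < x := by
      rw [cnt_seg hI.toInc x (by omega : 0 < r), ← hN]
      omega
    have h5 := hx 0 (by omega)
    omega
  · have h2 := hI.pair (N - 1) (by omega) (by omega)
    rw [show N - 1 + 1 = N by omega] at h2
    have h3 : I (N - 1) < x := by
      rw [cnt_seg hI.toInc x (by omega), ← hN]
      omega
    have h4 : ¬ I N < x := by
      rw [cnt_seg hI.toInc x (by omega), ← hN]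
      omega
    have h5 := hx N (by omega)
    omega

lemma neg_one_pow_parity {a b : ℕ} (h : a % 2 = b % 2) : (-1 : ℝ) ^ a = (-1 : ℝ) ^ b := by
  rw [neg_one_pow_eq_pow_mod_two, neg_one_pow_eq_pow_mod_two (n := b), h]

/-- the sign of a coordinate -/
theorem cf_sign {r n : ℕ} {p : ℕ → Fin r → ℝ} (hp : Cheb r n p) {I : ℕ → ℕ} (hI : Inc r n I)
    (k : Fin r) {j : ℕ} (hj : j < n) (hjI : ∀ l < r, I l ≠ j) :
    0 < (-1 : ℝ) ^ ((k : ℕ) + cnt ((range r).erase k) I j) * cf p I (p j) k := by
  classical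
  obtain ⟨s, rfl⟩ : ∃ s, r = s + 1 := ⟨r - 1, by have := k.2; omega⟩
  have hsub : (range (s + 1)).erase (k : ℕ) ⊆ range (s + 1) := Finset.erase_subset _ _
  obtain ⟨ψ, h1, h2⟩ := exists_fct hp (((range (s + 1)).erase (k : ℕ)).image I) (by
    rw [Finset.card_image_of_injOn, Finset.card_erase_of_mem (Finset.mem_range.2 k.2),
      Finset.card_range]
    · rfl
    · intro a ha b hb hab
      exact hI.inj (Finset.mem_range.1 (hsub ha)) (Finset.mem_range.1 (hsub hb)) hab) (by
    intro x hx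
    obtain ⟨l, hl, rfl⟩ := Finset.mem_image.1 hx
    exact hI.lt l (Finset.mem_range.1 (hsub hl)))
  have h3 := h2 j hj (by
    intro hc
    obtain ⟨l, hl, h4⟩ := Finset.mem_image.1 hc
    exact hjI l (Finset.mem_range.1 (hsub hl)) h4)
  have h4 := h2 (I k) (hI.lt k k.2) (by
    intro hc
    obtain ⟨l, hl, h4⟩ := Finset.mem_image.1 hc
    exact (Finset.mem_erase.1 hl).1 (hI.inj (Finset.mem_range.1 (hsub hl)) k.2 h4))
  rw [cnt_image hI hsub] at h3 h4
  have h5 : cnt ((range (s + 1)).erase (k : ℕ)) I (I k) = k := by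
    have h6 := cnt_erase (range (s + 1)) I (I k) k (Finset.mem_range.2 k.2)
    rw [cnt_self hI k.2, if_neg (lt_irrefl _)] at h6
    simpa using h6
  rw [h5] at h4
  have h6 := cf_fct p I (p j) ψ
  rw [Finset.sum_eq_single k] at h6
  · have hd := det_pos hp hI
    set c := cf p I (p j) k
    set a := ψ (p (I k))
    set N := cnt ((range (s + 1)).erase (k : ℕ)) I j
    have h7 : 0 < ((-1 : ℝ) ^ ((k : ℕ) + N) * c) * ((-1 : ℝ) ^ (k : ℕ) * a) := by
      have h8 : ((-1 : ℝ) ^ ((k : ℕ) + N) * c) * ((-1 : ℝ) ^ (k : ℕ) * a) =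
          (-1 : ℝ) ^ N * (((-1 : ℝ) ^ (k : ℕ) * (-1 : ℝ) ^ (k : ℕ)) * (c * a)) := by
        rw [pow_add]
        ring
      rw [h8, ← mul_pow, h6]
      have h9 : ((-1 : ℝ) * -1) ^ (k : ℕ) = 1 := by norm_num
      rw [h9, one_mul]
      have h10 := mul_pos hd h3
      linarith [h10]
    exact pos_of_mul_pos_left h7 h4.le
  · intro b _ hb
    rw [h1 (I b) (Finset.mem_image.2 ⟨b, Finset.mem_erase.2 ⟨fun h => hb (Fin.ext h),
      Finset.mem_range.2 b.2⟩, rfl⟩), mul_zero]
  · intro h
    exact absurd (Finset.mem_univ k) h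

section
variable {r n : ℕ} {p : ℕ → Fin r → ℝ} (hp : Cheb r n p) {I : ℕ → ℕ} (hI : AT r n I)
include hp hI

lemma cf_left_nonneg (k : Fin r) (hk : (r - k) % 2 = 0) {j : ℕ} (hj : j < n) (hjk : j ≤ I k) :
    0 ≤ cf p I (p j) k := by
  by_cases h : ∃ l < r, I l = j
  · obtain ⟨l, hl, rfl⟩ := h
    have h1 := cf_self p I ⟨l, hl⟩ k
    simp only at h1
    rw [h1]
    split_ifs
    · exact (det_pos hp hI.toInc).le
    · exact le_refl _
  · push Not at h
    have h1 := cf_sign hp hI.toInc k hj h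
    have h2 := hI.parity h
    have h3 := cnt_erase (range r) I j k (Finset.mem_range.2 k.2)
    rw [if_neg (by omega)] at h3
    have h4 : cnt (range r) I j ≤ r := by
      have := cnt_le (range r) I j
      rwa [Finset.card_range] at this
    have h5 : (-1 : ℝ) ^ ((k : ℕ) + cnt ((range r).erase k) I j) = 1 := by
      rw [neg_one_pow_parity (b := 0) (by have := k.2; omega), pow_zero]
    rw [h5, one_mul] at h1
    exact h1.le

lemma cf_left_neg (k : Fin r) (hk : (r - k) % 2 = 0) {j : ℕ} (hj : j < n) (hjk : I k < j)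
    (h : ∀ l < r, I l ≠ j) : cf p I (p j) k < 0 := by
  have h1 := cf_sign hp hI.toInc k hj h
  have h2 := hI.parity h
  have h3 := cnt_erase (range r) I j k (Finset.mem_range.2 k.2)
  rw [if_pos hjk] at h3
  have h4 : cnt (range r) I j ≤ r := by
    have := cnt_le (range r) I j
    rwa [Finset.card_range] at this
  have h5 : (-1 : ℝ) ^ ((k : ℕ) + cnt ((range r).erase k) I j) = -1 := by
    rw [neg_one_pow_parity (b := 1) (by have := k.2; omega), pow_one]
  rw [h5] at h1
  linarith

lemma cf_left_nonpos (k : Fin r) (hk : (r - k) % 2 = 0) {j : ℕ} (hj : j < n) (hjk : I k < j) :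
    cf p I (p j) k ≤ 0 := by
  by_cases h : ∃ l < r, I l = j
  · obtain ⟨l, hl, rfl⟩ := h
    have h1 := cf_self p I ⟨l, hl⟩ k
    simp only at h1
    rw [h1, if_neg]
    intro hc
    rw [hc] at hjk
    exact lt_irrefl _ hjk
  · push Not at h
    exact (cf_left_neg hp hI k hk hj hjk h).le

end

end Pool.Agent.U23.TP
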