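import Pool.Agent.U23.TP.Cf

/-!
# Existence of admissible representations
-/

set_option autoImplicit false

namespace Pool.Agent.U23.TP

open Finset

/-- the increasing function of the first numbers -/
lemma at_id {r n : ℕ} (h : r ≤ n) : AT r n (fun l => l) where
  mono := fun l _ => Nat.lt_succ_self l
  lt := fun l hl => by omega
  pair := fun _ _ _ => rfl
  zero := fun _ => rfl

/-- Covering a set by pairs of neighbours. -/
theorem cover : ∀ (r n : ℕ) (S : Finset ℕ), (∀ x ∈ S, x < n) → r ≤ n →
    (¬ ∃ K : ℕ → ℕ, (∀ l < r, K l < K (l + 1)) ∧ K r < n ∧ ∀ m ≤ r, (r - m) % 2 = 0 → K m ∈ S) →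
    ∃ J, AT r n J ∧ ∀ x ∈ S, ∃ l < r, J l = x
  | 0, n, S, h1, hrn, h => by
    refine ⟨fun l => l, at_id hrn, fun x hx => ?_⟩
    exact absurd ⟨fun _ => x, fun l hl => absurd hl (Nat.not_lt_zero _), h1 x hx,
      fun _ _ _ => hx⟩ h
  | 1, n, S, h1, hrn, h => by
    refine ⟨fun l => l, at_id hrn, fun x hx => ⟨0, Nat.one_pos, ?_⟩⟩
    by_contra hne
    refine h ⟨fun l => if l = 0 then 0 else x, fun l hl => ?_, ?_, fun m hm hm2 => ?_⟩
    · have : l = 0 := by omega
      subst this
      simp only [if_true, Nat.zero_add, one_ne_zero, if_false]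
      simp only at hne
      omega
    · simp only [one_ne_zero, if_false]
      exact h1 x hx
    · have : m = 1 := by omega
      subst this
      simpa using hx
  | r + 2, n, S, h1, hrn, h => by
    classical
    by_cases hs : ∃ s ∈ S, r + 2 ≤ s
    · obtain ⟨s0, hs0, hs1⟩ := hs
      obtain ⟨s, hsS, hsmax⟩ : ∃ s ∈ S, ∀ x ∈ S, x ≤ s :=
        ⟨S.max' ⟨s0, hs0⟩, Finset.max'_mem _ _, fun x hx => Finset.le_max' _ _ hx⟩
      have hsr : r + 2 ≤ s := hs1.trans (hsmax s0 hs0)
      have hsn := h1 s hsS
      obtain ⟨J, hJ, hcov⟩ := cover r (s - 1) (S.filter fun x => x < s - 1)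
        (fun x hx => (Finset.mem_filter.1 hx).2) (by omega) (by
          rintro ⟨K, k1, k2, k3⟩
          refine h ⟨fun l => if l ≤ r then K l else if l = r + 1 then s - 1 else s,
            fun l hl => ?_, ?_, fun m hm hm2 => ?_⟩
          · simp only
            rcases Nat.lt_or_ge l r with h2 | h2
            · rw [if_pos (by omega), if_pos (by omega)]
              exact k1 l h2
            · rcases Nat.lt_or_ge r l with h3 | h3
              · rw [if_neg (by omega), if_pos (by omega), if_neg (by omega), if_neg (by omega)]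
                omega
              · have : l = r := by omega
                subst this
                rw [if_pos (le_refl _), if_neg (by omega), if_pos rfl]
                exact k2
          · simp only
            rw [if_neg (by omega), if_neg (by omega)]
            exact hsn
          · simp only
            rcases Nat.lt_or_ge r m with h3 | h3
            · have : m = r + 2 := by omega
              subst this
              rw [if_neg (by omega), if_neg (by omega)]
              exact hsS
            · rw [if_pos h3]
              exact (Finset.mem_filter.1 (k3 m h3 (by omega))).1)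
      refine ⟨fun l => if l < r then J l else s - 1 + (l - r), ?_, fun x hx => ?_⟩
      · refine ⟨⟨fun l hl => ?_, fun l hl => ?_⟩, fun l hl hl2 => ?_, fun h2 => ?_⟩
        · rcases Nat.lt_or_ge (l + 1) r with h2 | h2
          · rw [if_pos (by omega), if_pos h2]
            exact hJ.mono l h2
          · rcases Nat.lt_or_ge l r with h3 | h3
            · rw [if_pos h3, if_neg (by omega)]
              have := hJ.lt l h3
              omega
            · rw [if_neg (by omega), if_neg (by omega)]
              omega
        · split_ifs with h2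
          · have := hJ.lt l h2
            omega
          · omega
        · rcases Nat.lt_or_ge l r with h3 | h3
          · rw [if_pos h3, if_pos (by omega)]
            exact hJ.pair l (by omega) (by omega)
          · rw [if_neg (by omega), if_neg (by omega)]
            omega
        · rw [if_pos (by omega)]
          exact hJ.zero (by omega)
      · rcases Nat.lt_or_ge x (s - 1) with h2 | h2
        · obtain ⟨l, hl, h3⟩ := hcov x (Finset.mem_filter.2 ⟨hx, h2⟩)
          exact ⟨l, by omega, by simp only [if_pos hl, h3]⟩
        · have h3 := hsmax x hx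
          rcases Nat.lt_or_ge x s with h4 | h4
          · exact ⟨r, by omega, by simp only [lt_irrefl, if_false]; omega⟩
          · exact ⟨r + 1, by omega, by
              simp only
              rw [if_neg (by omega)]
              omega⟩
    · push Not at hs
      exact ⟨fun l => l, at_id hrn, fun x hx => ⟨x, hs x hx, rfl⟩⟩

lemma MI_congr {r : ℕ} (p : ℕ → Fin r → ℝ) {I I' : ℕ → ℕ} (h : ∀ l < r, I l = I' l) :
    MI p I = MI p I' := by
  unfold MI
  ext a i
  simp only [Matrix.of_apply]
  rw [h i i.2]

/-- weights for which the last vector of a dependency is most expensive -/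
theorem exists_weight {r n : ℕ} {p : ℕ → Fin r → ℝ} (hp : Cheb r n p) :
    ∃ w : ℕ → ℝ, (∀ j, 0 < w j) ∧ ∀ (I : ℕ → ℕ) (j : ℕ), Inc r n I → j < n →
      (∀ l < r, I l < j) → ∑ i : Fin r, cf p I (p j) i * w (I i) < (MI p I).det * w j := by
  classical
  let q : (Fin r → Fin n) → (ℕ → ℕ) := fun f l => if h : l < r then f ⟨l, h⟩ else 0
  let B : (Fin r → Fin n) → Fin n → ℝ := fun f j =>
    (∑ i : Fin r, |cf p (q f) (p j) i|) / |(MI p (q f)).det|
  have hB : ∀ f j, 0 ≤ B f j := fun f j =>
    div_nonneg (Finset.sum_nonneg fun _ _ => abs_nonneg _) (abs_nonneg _)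
  set W := 1 + ∑ f : Fin r → Fin n, ∑ j : Fin n, B f j with hW
  have hW1 : 1 ≤ W := by
    have : 0 ≤ ∑ f : Fin r → Fin n, ∑ j : Fin n, B f j :=
      Finset.sum_nonneg fun f _ => Finset.sum_nonneg fun j _ => hB f j
    linarith
  refine ⟨fun j => W ^ j, fun j => pow_pos (by linarith) j, fun I j hI hj hIj => ?_⟩
  simp only
  have hd := det_pos hp hI
  let f : Fin r → Fin n := fun l => ⟨I l, hI.lt l l.2⟩
  have hfI : ∀ l < r, I l = q f l := by
    intro l hl
    simp only [q, f, dif_pos hl]
  have hMI := MI_congr p hfI
  have hcf : ∀ w i, cf p I w i = cf p (q f) w i := by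
    intro w i
    unfold cf
    rw [hMI]
  have h1 : B f ⟨j, hj⟩ < W := by
    have h2 : B f ⟨j, hj⟩ ≤ ∑ j : Fin n, B f j :=
      Finset.single_le_sum (f := fun j => B f j) (fun j _ => hB f j) (Finset.mem_univ _)
    have h3 : ∑ j : Fin n, B f j ≤ ∑ f : Fin r → Fin n, ∑ j : Fin n, B f j :=
      Finset.single_le_sum (f := fun f => ∑ j : Fin n, B f j)
        (fun f _ => Finset.sum_nonneg fun j _ => hB f j) (Finset.mem_univ f)
    linarith
  have h2 : ∑ i : Fin r, |cf p I (p j) i| < W * (MI p I).det := by
    have h3 : B f ⟨j, hj⟩ = (∑ i : Fin r, |cf p I (p j) i|) / (MI p I).det := by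
      simp only [B]
      rw [← hMI, abs_of_pos hd]
      simp only [hcf]
    rw [h3, div_lt_iff₀ hd] at h1
    exact h1
  rcases Nat.eq_zero_or_pos j with h0 | h0
  · rcases Nat.eq_zero_or_pos r with hr | hr
    · subst hr
      simp only [Finset.univ_eq_empty, Finset.sum_empty]
      exact mul_pos hd (pow_pos (by linarith) j)
    · have := hIj 0 hr
      omega
  · calc ∑ i : Fin r, cf p I (p j) i * W ^ I i
        ≤ ∑ i : Fin r, |cf p I (p j) i| * W ^ (j - 1) := by
          refine Finset.sum_le_sum fun i _ => ?_
          have h3 := hIj i i.2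
          exact mul_le_mul (le_abs_self _) (pow_le_pow_right₀ hW1 (by omega))
            (pow_nonneg (by linarith) _) (abs_nonneg _)
      _ = (∑ i : Fin r, |cf p I (p j) i|) * W ^ (j - 1) := by rw [Finset.sum_mul]
      _ < (W * (MI p I).det) * W ^ (j - 1) :=
          mul_lt_mul_of_pos_right h2 (pow_pos (by linarith) _)
      _ = (MI p I).det * (W ^ (j - 1) * W) := by ring
      _ = (MI p I).det * W ^ j := by
          rw [← pow_succ, show j - 1 + 1 = j by omega]

/-- a nonnegative solution of least weight -/
theorem exists_min {n : ℕ} {r : ℕ} (p : ℕ → Fin r → ℝ) (w : ℕ → ℝ) (hw : ∀ j, 0 < w j)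
    (c : Fin r → ℝ) (x : Fin n → ℝ) (hx : ∀ j, 0 ≤ x j) (hc : c = ∑ j : Fin n, x j • p j) :
    ∃ y : Fin n → ℝ, (∀ j, 0 ≤ y j) ∧ c = ∑ j : Fin n, y j • p j ∧
      ∀ y' : Fin n → ℝ, (∀ j, 0 ≤ y' j) → c = ∑ j : Fin n, y' j • p j →
        ∑ j : Fin n, w j * y j ≤ ∑ j : Fin n, w j * y' j := by
  classical
  let F : (Fin n → ℝ) → ℝ := fun y => ∑ j : Fin n, w j * y j
  have hF : Continuous F := by
    simp only [F]
    fun_prop
  let X : Set (Fin n → ℝ) := {y | (∀ j, 0 ≤ y j) ∧ c = ∑ j : Fin n, y j • p j ∧ F y ≤ F x}
  have hXc : IsCompact X := by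
    refine (isCompact_univ_pi (s := fun j : Fin n => Set.Icc (0 : ℝ) (F x / w j))
      fun j => isCompact_Icc).of_isClosed_subset ?_ ?_
    · have e : X = {y : Fin n → ℝ | ∀ j, 0 ≤ y j} ∩ ({y | c = ∑ j : Fin n, y j • p j} ∩
          {y | F y ≤ F x}) := by
        ext y
        simp only [X, Set.mem_ofPred_eq, Set.mem_inter_iff]
      rw [e]
      refine IsClosed.inter ?_ (IsClosed.inter ?_ ?_)
      · have e2 : {y : Fin n → ℝ | ∀ j, 0 ≤ y j} = ⋂ j, {y | 0 ≤ y j} := by
          ext y; simp
        rw [e2]
        exact isClosed_iInter fun j => isClosed_le continuous_const (continuous_apply j)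
      · refine isClosed_eq continuous_const ?_
        fun_prop
      · exact isClosed_le hF continuous_const
    · rintro y ⟨h1, _, h3⟩
      rw [Set.mem_univ_pi]
      intro j
      refine ⟨h1 j, ?_⟩
      rw [le_div_iff₀ (hw j)]
      have h4 : w j * y j ≤ F y :=
        Finset.single_le_sum (f := fun j : Fin n => w j * y j)
          (fun j _ => mul_nonneg (hw j).le (h1 j)) (Finset.mem_univ j)
      linarith
  obtain ⟨y, hy, hmin⟩ := hXc.exists_isMinOn ⟨x, hx, hc, le_refl _⟩ hF.continuousOn
  refine ⟨y, hy.1, hy.2.1, fun y' h1 h2 => ?_⟩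
  rcases le_total (F y') (F x) with h3 | h3
  · exact hmin (show y' ∈ X from ⟨h1, h2, h3⟩)
  · exact le_trans hy.2.2 h3

/-- **Existence of admissible representations.** -/
theorem exists_rep {r n : ℕ} {p : ℕ → Fin r → ℝ} (hrn : r ≤ n) (hp : Cheb r n p)
    (c : Fin r → ℝ) (x : Fin n → ℝ) (hx : ∀ j, 0 ≤ x j) (hc : c = ∑ j : Fin n, x j • p j) :
    ∃ J, AT r n J ∧ ∃ z : Fin r → ℝ, (∀ l, 0 ≤ z l) ∧ c = ∑ l : Fin r, z l • p (J l) := by
  classical
  obtain ⟨w, hw, hw2⟩ := exists_weight hp
  obtain ⟨y, hy, hyc, hmin⟩ := exists_min p w hw c x hx hc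
  set S : Finset ℕ := (Finset.univ.filter fun j : Fin n => 0 < y j).image Fin.val with hS
  have hSmem : ∀ j : Fin n, (j : ℕ) ∈ S ↔ 0 < y j := by
    intro j
    rw [hS, Finset.mem_image]
    constructor
    · rintro ⟨i, hi, h1⟩
      rw [← Fin.ext h1]
      exact (Finset.mem_filter.1 hi).2
    · intro h1
      exact ⟨j, Finset.mem_filter.2 ⟨Finset.mem_univ _, h1⟩, rfl⟩
  have hSn : ∀ x ∈ S, x < n := by
    intro x hx
    rw [hS, Finset.mem_image] at hx
    obtain ⟨i, _, rfl⟩ := hx
    exact i.2
  obtain ⟨J, hJ, hcov⟩ := cover r n S hSn hrn (by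
    rintro ⟨K, k1, k2, k3⟩
    have hmonoK : ∀ a d, a + d ≤ r → K a + d ≤ K (a + d) := by
      intro a d
      induction d with
      | zero => intro _; exact le_refl _
      | succ d ih =>
        intro hd
        have h1 := ih (by omega)
        have h2 := k1 (a + d) (by omega)
        rw [show a + (d + 1) = a + d + 1 by omega]
        omega
    have hlt : ∀ l < r, K l < K r := by
      intro l hl
      have := hmonoK l (r - l) (by omega)
      rw [show l + (r - l) = r by omega] at this
      omega
    have hI : Inc r n K := ⟨fun l hl => k1 l (by omega), fun l hl => (hlt l hl).trans k2⟩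
    have hd := det_pos hp hI
    set e : Fin r → ℝ := fun i => cf p K (p (K r)) i with he
    have hsign : ∀ i : Fin r, (r - i) % 2 = 1 → 0 ≤ e i := by
      intro i hi
      have h1 := cf_sign hp hI i k2 (fun l hl => (hlt l hl).ne)
      have h2 : cnt ((range r).erase (i : ℕ)) K (K r) = r - 1 := by
        unfold cnt
        rw [Finset.filter_true_of_mem, Finset.card_erase_of_mem (Finset.mem_range.2 i.2),
          Finset.card_range]
        intro l hl
        exact hlt l (Finset.mem_range.1 (Finset.mem_erase.1 hl).2)
      rw [h2, neg_one_pow_parity (b := 0) (by have := i.2; omega), pow_zero, one_mul] at h1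
      exact h1.le
    -- the direction
    let v : Fin n → ℝ := fun j => (∑ i : Fin r, if K i = j then e i else 0) -
      if K r = j then (MI p K).det else 0
    have hvp : ∑ j : Fin n, v j • p j = 0 := by
      have h1 : ∑ j : Fin n, v j • p j = (∑ i : Fin r, e i • p (K i)) -
          (MI p K).det • p (K r) := by
        have h2 : ∀ j : Fin n, v j • p j = (∑ i : Fin r, if K i = j then e i • p (K i) else 0) -
            if K r = j then (MI p K).det • p (K r) else 0 := by
          intro j
          simp only [v]
          rw [sub_smul, Finset.sum_smul]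
          congr 1
          · refine Finset.sum_congr rfl fun i _ => ?_
            split_ifs with h3
            · rw [h3]
            · rw [zero_smul]
          · split_ifs with h3
            · rw [h3]
            · rw [zero_smul]
        simp only [h2]
        rw [Finset.sum_sub_distrib]
        congr 1
        · rw [Finset.sum_comm]
          refine Finset.sum_congr rfl fun i _ => ?_
          rw [Finset.sum_eq_single (⟨K i, hI.lt i i.2⟩ : Fin n)]
          · simp
          · intro b _ hb
            rw [if_neg]
            intro h3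
            exact hb (Fin.ext h3.symm)
          · intro h3
            exact absurd (Finset.mem_univ _) h3
        · rw [Finset.sum_eq_single (⟨K r, k2⟩ : Fin n)]
          · simp
          · intro b _ hb
            rw [if_neg]
            intro h3
            exact hb (Fin.ext h3.symm)
          · intro h3
            exact absurd (Finset.mem_univ _) h3
      rw [h1, he, cf_sum, sub_self]
    have hvw : ∑ j : Fin n, w j * v j < 0 := by
      have h1 : ∑ j : Fin n, w j * v j = (∑ i : Fin r, e i * w (K i)) -
          (MI p K).det * w (K r) := by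
        have h2 : ∀ j : Fin n, w j * v j = (∑ i : Fin r, if K i = j then e i * w (K i) else 0) -
            if K r = j then (MI p K).det * w (K r) else 0 := by
          intro j
          simp only [v]
          rw [mul_sub, Finset.mul_sum]
          congr 1
          · refine Finset.sum_congr rfl fun i _ => ?_
            split_ifs with h3
            · rw [h3, mul_comm]
            · rw [mul_zero]
          · split_ifs with h3
            · rw [h3, mul_comm]
            · rw [mul_zero]
        simp only [h2]
        rw [Finset.sum_sub_distrib]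
        congr 1
        · rw [Finset.sum_comm]
          refine Finset.sum_congr rfl fun i _ => ?_
          rw [Finset.sum_eq_single (⟨K i, hI.lt i i.2⟩ : Fin n)]
          · simp
          · intro b _ hb
            rw [if_neg]
            intro h3
            exact hb (Fin.ext h3.symm)
          · intro h3
            exact absurd (Finset.mem_univ _) h3
        · rw [Finset.sum_eq_single (⟨K r, k2⟩ : Fin n)]
          · simp
          · intro b _ hb
            rw [if_neg]
            intro h3
            exact hb (Fin.ext h3.symm)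
          · intro h3
            exact absurd (Finset.mem_univ _) h3
      rw [h1]
      have := hw2 K (K r) hI k2 hlt
      linarith
    have hpos : ∀ j : Fin n, 0 < y j ∨ 0 ≤ v j := by
      intro j
      by_cases h1 : (j : ℕ) ∈ S
      · exact Or.inl ((hSmem j).1 h1)
      · right
        simp only [v]
        have h2 : ¬ K r = j := by
          intro h3
          exact h1 (h3 ▸ k3 r (le_refl _) (by omega))
        rw [if_neg h2, sub_zero]
        refine Finset.sum_nonneg fun i _ => ?_
        split_ifs with h3
        · refine hsign i ?_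
          by_contra h4
          exact h1 (h3 ▸ k3 i i.2.le (by omega))
        · exact le_refl _
    obtain ⟨ε, hε, hε2⟩ : ∃ ε : ℝ, 0 < ε ∧ ∀ j : Fin n, 0 ≤ y j + ε * v j := by
      have h1 : ∀ᶠ ε : ℝ in nhdsWithin 0 (Set.Ioi 0), ∀ j : Fin n, 0 ≤ y j + ε * v j := by
        rw [Filter.eventually_all]
        intro j
        rcases hpos j with h2 | h2
        · have h3 : Filter.Tendsto (fun ε : ℝ => y j + ε * v j) (nhdsWithin 0 (Set.Ioi 0))
              (nhds (y j + 0 * v j)) := by
            refine Filter.Tendsto.mono_left ?_ nhdsWithin_le_nhds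
            exact (continuous_const.add (continuous_id.mul continuous_const)).tendsto 0
          rw [zero_mul, add_zero] at h3
          filter_upwards [h3.eventually (lt_mem_nhds h2)] with ε h4
          exact h4.le
        · filter_upwards [self_mem_nhdsWithin] with ε h3
          exact add_nonneg (hy j) (mul_nonneg (le_of_lt h3) h2)
      obtain ⟨ε, h2, h3⟩ := (h1.and self_mem_nhdsWithin).exists
      exact ⟨ε, h3, h2⟩
    have h1 := hmin (fun j => y j + ε * v j) hε2 (by
      simp only [add_smul, Finset.sum_add_distrib, mul_smul]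
      rw [← hyc, ← Finset.smul_sum, hvp, smul_zero, add_zero])
    have h2 : ∑ j : Fin n, w j * (y j + ε * v j) =
        ∑ j : Fin n, w j * y j + ε * ∑ j : Fin n, w j * v j := by
      rw [Finset.mul_sum, ← Finset.sum_add_distrib]
      exact Finset.sum_congr rfl fun j _ => by ring
    rw [h2] at h1
    have h3 := mul_neg_of_pos_of_neg hε hvw
    linarith)
  refine ⟨J, hJ, fun l => y ⟨J l, hJ.lt l l.2⟩, fun l => hy _, ?_⟩
  rw [hyc]
  symm
  have hinj : Function.Injective fun l : Fin r => (⟨J l, hJ.lt l l.2⟩ : Fin n) := by
    intro a b hab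
    exact Fin.ext (hJ.toInc.inj a.2 b.2 (congrArg Fin.val hab))
  have h1 : ∑ l : Fin r, y ⟨J l, hJ.lt l l.2⟩ • p (J l) =
      ∑ j ∈ Finset.univ.image (fun l : Fin r => (⟨J l, hJ.lt l l.2⟩ : Fin n)), y j • p j := by
    rw [Finset.sum_image fun a _ b _ h => hinj h]
  rw [h1]
  refine Finset.sum_subset (Finset.subset_univ _) fun j _ hj => ?_
  have h2 : ¬ 0 < y j := by
    intro h3
    obtain ⟨l, hl, h4⟩ := hcov j ((hSmem j).2 h3)
    exact hj (Finset.mem_image.2 ⟨⟨l, hl⟩, Finset.mem_univ _, Fin.ext h4⟩)
  rw [le_antisymm (not_lt.1 h2) (hy j), zero_smul]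

end Pool.Agent.U23.TP
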