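import Pool.Agent.U23.TP.Step
import Pool.Agent.U23.TP.Ex
import Pool.Agent.H622R3.SM.Model

/-!
# The pivot rule on lists
-/

set_option autoImplicit false

namespace Pool.Agent.U23.TP

open Finset Pool.Agent.H622R3.SM

/-- The left positions with negative coordinates, in decreasing order. The outcome number `r` is the
sign of the determinant, and the others are the signs of the negatives of the coordinates, times the
determinant. -/
def hitL (r : ℕ) (o : List Outcome) : List ℕ :=
  ((List.range r).filter fun k =>
    decide ((r - k) % 2 = 0) && decide (o.getD k none = o.getD r none)).reverse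

/-- The block of neighbours which begins at the position `k` is moved by one. -/
def shiftL (r k : ℕ) (I : List ℕ) : List ℕ :=
  (List.range r).map fun l =>
    if decide (k ≤ l) && decide (I.getD l 0 + k = I.getD k 0 + l) then I.getD l 0 + 1
    else I.getD l 0

/-- `I'`, if its last element is less than `n`. -/
def clip (r n : ℕ) (I I' : List ℕ) : List ℕ := if I'.getD (r - 1) 0 < n then I' else I

/-- The next indices. -/
def nxt (r n : ℕ) (I : List ℕ) (o : List Outcome) : List ℕ :=
  ((hitL r o).head?.map fun k => clip r n I (shiftL r k I)).getD I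

/-- No coordinate is negative. -/
def okL (r : ℕ) (o : List Outcome) : Bool :=
  (List.range r).all fun k => !decide (o.getD k none = o.getD r none)

lemma hit_some {r : ℕ} {o : List Outcome} {k : ℕ} (h : (hitL r o).head? = some k) :
    (k < r ∧ (r - k) % 2 = 0 ∧ o.getD k none = o.getD r none) ∧
      ∀ k', k < k' → k' < r → (r - k') % 2 = 0 → o.getD k' none ≠ o.getD r none := by
  have hmem : ∀ x, x ∈ hitL r o ↔ x < r ∧ (r - x) % 2 = 0 ∧ o.getD x none = o.getD r none := by
    intro x
    unfold hitL
    rw [List.mem_reverse, List.mem_filter, List.mem_range]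
    simp
  have hpw : (hitL r o).Pairwise (fun a b => b < a) := by
    unfold hitL
    rw [List.pairwise_reverse]
    exact List.Pairwise.filter _ List.pairwise_lt_range
  cases hl : hitL r o with
  | nil =>
    rw [hl] at h
    exact absurd h (by simp)
  | cons a t =>
    rw [hl] at h hpw
    have ha : a = k := by simpa using h
    subst ha
    refine ⟨(hmem a).1 (by rw [hl]; exact List.mem_cons_self ..), fun k' h1 h2 h3 h4 => ?_⟩
    have h5 := (hmem k').2 ⟨h2, h3, h4⟩
    rw [hl, List.mem_cons] at h5
    rcases h5 with h5 | h5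
    · omega
    · have := (List.pairwise_cons.1 hpw).1 k' h5
      omega

lemma hit_none {r : ℕ} {o : List Outcome} (h : (hitL r o).head? = none) {k : ℕ} (hk : k < r)
    (hk2 : (r - k) % 2 = 0) : o.getD k none ≠ o.getD r none := by
  intro h1
  have h2 : k ∈ hitL r o := by
    unfold hitL
    rw [List.mem_reverse, List.mem_filter, List.mem_range, Bool.and_eq_true, decide_eq_true_eq,
      decide_eq_true_eq]
    exact ⟨hk, hk2, h1⟩
  rw [List.head?_eq_none_iff] at h
  rw [h] at h2
  exact absurd h2 (by simp)

lemma shift_getD {r k : ℕ} {I : List ℕ} {l : ℕ} (hl : l < r) :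
    (shiftL r k I).getD l 0 = if k ≤ l ∧ I.getD l 0 + k = I.getD k 0 + l then I.getD l 0 + 1
      else I.getD l 0 := by
  unfold shiftL
  rw [List.getD_eq_getElem?_getD, List.getElem?_map, List.getElem?_range hl]
  simp only [Option.map_some, Option.getD_some, Bool.and_eq_true, decide_eq_true_eq]

/-- the list as a function -/
abbrev fn (L : List ℕ) : ℕ → ℕ := fun l => L.getD l 0

lemma shift_inc {r n k : ℕ} {I : List ℕ} (hI : Inc r n (fn I))
    (hn : (shiftL r k I).getD (r - 1) 0 < n) : Inc r n (fn (shiftL r k I)) := by
  have hmono : ∀ l, l + 1 < r → fn (shiftL r k I) l < fn (shiftL r k I) (l + 1) := by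
    intro l hl
    have h1 := hI.mono l hl
    simp only [fn] at h1 ⊢
    rw [shift_getD (by omega), shift_getD hl]
    split_ifs <;> omega
  refine ⟨hmono, fun l hl => ?_⟩
  have h1 : ∀ d, l + d < r → fn (shiftL r k I) l ≤ fn (shiftL r k I) (l + d) := by
    intro d
    induction d with
    | zero => intro _; exact le_refl _
    | succ d ih =>
      intro hd
      exact (ih (by omega)).trans (hmono (l + d) (by omega)).le
  have h2 := h1 (r - 1 - l) (by omega)
  rw [show l + (r - 1 - l) = r - 1 by omega] at h2
  exact lt_of_le_of_lt h2 hn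

section
variable {r n : ℕ} (p : ℕ → Fin r → ℝ) (c : Fin r → ℝ)

/-- The values of the queries. -/
noncomputable def valN (L : List ℕ) (k : ℕ) : ℝ :=
  if h : k < r then - cf p (fn L) c ⟨k, h⟩ else (MI p (fn L)).det

/-- The outcomes of the queries. -/
noncomputable def outs (L : List ℕ) : List Outcome :=
  (List.range (r + 1)).map fun k => signOut (valN p c L k)

/-- The sequence of the states. -/
noncomputable def st (n : ℕ) : ℕ → List ℕ
  | 0 => List.range r
  | i + 1 => nxt r n (st n i) (outs p c (st n i))

lemma outs_getD (L : List ℕ) {k : ℕ} (hk : k ≤ r) :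
    (outs p c L).getD k none = signOut (valN p c L k) := by
  unfold outs
  rw [List.getD_eq_getElem?_getD, List.getElem?_map, List.getElem?_range (by omega)]
  rfl

variable {p c}

lemma outs_eq (hp : Cheb r n p) {L : List ℕ} (hL : Inc r n (fn L)) {k : ℕ} (hk : k < r) :
    (outs p c L).getD k none = (outs p c L).getD r none ↔ cf p (fn L) c ⟨k, hk⟩ < 0 := by
  rw [outs_getD p c L hk.le, outs_getD p c L (le_refl r)]
  unfold valN
  rw [dif_pos hk, dif_neg (lt_irrefl r)]
  have hd := det_pos hp hL
  have h1 : signOut (MI p (fn L)).det = some true := by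
    unfold signOut
    rw [if_pos hd]
  rw [h1]
  unfold signOut
  constructor
  · intro h
    by_contra hc
    rw [if_neg (by linarith)] at h
    split_ifs at h
    · exact absurd h (by simp)
  · intro h
    rw [if_pos (by linarith)]

/-- the invariants of the states -/
lemma nxt_inc {L : List ℕ} (hL : Inc r n (fn L)) (o : List Outcome) :
    Inc r n (fn (nxt r n L o)) := by
  unfold nxt
  cases h : (hitL r o).head? with
  | none => exact hL
  | some k =>
    show Inc r n (fn (clip r n L (shiftL r k L)))
    unfold clip
    split_ifs with h1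
    · exact shift_inc hL h1
    · exact hL

lemma st_inc (hrn : r ≤ n) (i : ℕ) : Inc r n (fn (st p c n i)) := by
  induction i with
  | zero =>
    have h1 : ∀ l < r, fn (List.range r) l = l := by
      intro l hl
      simp only [fn]
      rw [List.getD_eq_getElem?_getD, List.getElem?_range hl]
      rfl
    refine ⟨fun l hl => ?_, fun l hl => ?_⟩
    · show fn (List.range r) l < fn (List.range r) (l + 1)
      rw [h1 l (by omega), h1 (l + 1) hl]
      omega
    · show fn (List.range r) l < n
      rw [h1 l hl]
      omega
  | succ i ih => exact nxt_inc ih _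

/-- the sum of the indices -/
def tot (r : ℕ) (L : List ℕ) : ℕ := ∑ l ∈ range r, fn L l

lemma shift_tot {k : ℕ} {L : List ℕ} (hk : k < r) : tot r L + 1 ≤ tot r (shiftL r k L) := by
  unfold tot
  have h1 : ∑ l ∈ range r, fn L l < ∑ l ∈ range r, fn (shiftL r k L) l := by
    refine Finset.sum_lt_sum (fun l hl => ?_) ⟨k, Finset.mem_range.2 hk, ?_⟩
    · rw [Finset.mem_range] at hl
      simp only [fn]
      rw [shift_getD hl]
      split_ifs <;> omega
    · simp only [fn]
      rw [shift_getD hk, if_pos ⟨le_refl _, rfl⟩]
      omega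
  omega

lemma nxt_tot (L : List ℕ) (o : List Outcome) :
    nxt r n L o = L ∨ tot r L + 1 ≤ tot r (nxt r n L o) := by
  unfold nxt
  cases h : (hitL r o).head? with
  | none => exact Or.inl rfl
  | some k =>
    show clip r n L (shiftL r k L) = L ∨ tot r L + 1 ≤ tot r (clip r n L (shiftL r k L))
    unfold clip
    split_ifs with h1
    · exact Or.inr (shift_tot (hit_some h).1.1)
    · exact Or.inl rfl

lemma st_fixed (hr : 1 ≤ r) (hrn : r ≤ n) :
    nxt r n (st p c n (r * n)) (outs p c (st p c n (r * n))) = st p c n (r * n) := by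
  have key : ∀ i, nxt r n (st p c n i) (outs p c (st p c n i)) = st p c n i ∨
      i ≤ tot r (st p c n i) := by
    intro i
    induction i with
    | zero => exact Or.inr (Nat.zero_le _)
    | succ i ih =>
      have e : st p c n (i + 1) = nxt r n (st p c n i) (outs p c (st p c n i)) := rfl
      rcases nxt_tot (r := r) (n := n) (st p c n i) (outs p c (st p c n i)) with h1 | h1
      · left
        rw [e, h1]
        exact h1
      · rcases ih with h2 | h2
        · left
          rw [e, h2]
          exact h2
        · right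
          rw [e]
          omega
  rcases key (r * n) with h1 | h1
  · exact h1
  · exfalso
    have h2 : tot r (st p c n (r * n)) ≤ r * (n - 1) := by
      unfold tot
      have h3 := Finset.sum_le_card_nsmul (range r) (fn (st p c n (r * n))) (n - 1) fun l hl => by
        have := (st_inc (p := p) (c := c) hrn (r * n)).lt l (Finset.mem_range.1 hl)
        omega
      rw [Finset.card_range, smul_eq_mul] at h3
      exact h3
    have h3 : r * (n - 1) < r * n := Nat.mul_lt_mul_of_pos_left (by omega) (by omega)
    omega

section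
variable (hp : Cheb r n p) {J : ℕ → ℕ} (hJ : AT r n J) {z : Fin r → ℝ} (hz : ∀ l, 0 ≤ z l)
  (hc : c = ∑ l : Fin r, z l • p (J l))
include hp hJ hz hc

lemma hit_lt {L : List ℕ} (hL : AT r n (fn L)) (hle : ∀ l < r, fn L l ≤ J l) {k : ℕ}
    (h : (hitL r (outs p c L)).head? = some k) : k < r ∧ (r - k) % 2 = 0 ∧ fn L k < J k := by
  obtain ⟨⟨h1, h2, h3⟩, h4⟩ := hit_some h
  rw [outs_eq hp hL.toInc h1] at h3
  refine ⟨h1, h2, step_lt hp hL hJ hle hz hc ⟨k, h1⟩ h2 h3 fun m hm hm2 => ?_⟩
  have h5 := h4 m hm m.2 hm2
  rw [Ne, outs_eq hp hL.toInc m.2, not_lt] at h5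
  exact h5

omit hp hz hc in
lemma shift_le {L : List ℕ} (hle : ∀ l < r, fn L l ≤ J l) {k : ℕ} (hk2 : fn L k < J k) : ∀ l < r, fn (shiftL r k L) l ≤ J l := by
  intro l hl
  simp only [fn] at hk2 ⊢
  rw [shift_getD hl]
  split_ifs with h1
  · have h2 := hJ.toInc.add_le k (l - k) (by omega)
    rw [show k + (l - k) = l by omega] at h2
    omega
  · exact hle l hl

lemma nxt_at {L : List ℕ} (hL : AT r n (fn L)) (hle : ∀ l < r, fn L l ≤ J l) :
    AT r n (fn (nxt r n L (outs p c L))) ∧ ∀ l < r, fn (nxt r n L (outs p c L)) l ≤ J l := by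
  unfold nxt
  cases h : (hitL r (outs p c L)).head? with
  | none => exact ⟨hL, hle⟩
  | some k =>
    obtain ⟨h1, h2, h3⟩ := hit_lt hp hJ hz hc hL hle h
    have h4 := shift_le hJ hle h3
    have h5 : (shiftL r k L).getD (r - 1) 0 < n :=
      lt_of_le_of_lt (h4 (r - 1) (by omega)) (hJ.lt (r - 1) (by omega))
    show AT r n (fn (clip r n L (shiftL r k L))) ∧
      ∀ l < r, fn (clip r n L (shiftL r k L)) l ≤ J l
    unfold clip
    rw [if_pos h5]
    refine ⟨⟨shift_inc hL.toInc h5, fun l hl hl2 => ?_, fun hodd => ?_⟩, h4⟩
    · have h6 := hL.pair l hl hl2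
      simp only [fn] at h6 ⊢
      rw [shift_getD hl, shift_getD (show l < r by omega)]
      split_ifs <;> omega
    · have h6 := hL.zero hodd
      simp only [fn] at h6 ⊢
      rw [shift_getD (by omega)]
      split_ifs <;> omega

lemma st_at (hrn : r ≤ n) (i : ℕ) :
    AT r n (fn (st p c n i)) ∧ ∀ l < r, fn (st p c n i) l ≤ J l := by
  induction i with
  | zero =>
    have h1 : ∀ l < r, fn (List.range r) l = l := by
      intro l hl
      simp only [fn]
      rw [List.getD_eq_getElem?_getD, List.getElem?_range hl]
      rfl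
    refine ⟨⟨st_inc hrn 0, fun l hl hl2 => ?_, fun hodd => ?_⟩, fun l hl => ?_⟩
    · show fn (List.range r) (l + 1) = fn (List.range r) l + 1
      rw [h1 l (by omega), h1 (l + 1) hl]
    · show fn (List.range r) 0 = 0
      exact h1 0 (by omega)
    · show fn (List.range r) l ≤ J l
      rw [h1 l hl]
      have := hJ.toInc.add_le 0 l (by omega)
      rw [Nat.zero_add] at this
      omega
  | succ i ih => exact nxt_at hp hJ hz hc ih.1 ih.2

end

/-- **Correctness of the pivot rule.** -/
theorem ok_iff (hr : 1 ≤ r) (hrn : r ≤ n) (hp : Cheb r n p) :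
    okL r (outs p c (st p c n (r * n))) = true ↔
      ∃ x : Fin n → ℝ, (∀ j, 0 ≤ x j) ∧ c = ∑ j : Fin n, x j • p j := by
  have hinc := st_inc (p := p) (c := c) hrn (r * n)
  have hok : okL r (outs p c (st p c n (r * n))) = true ↔
      ∀ k : Fin r, 0 ≤ cf p (fn (st p c n (r * n))) c k := by
    unfold okL
    rw [List.all_eq_true]
    constructor
    · intro h k
      have h1 := h k (List.mem_range.2 k.2)
      rw [Bool.not_eq_true', decide_eq_false_iff_not, outs_eq hp hinc k.2, not_lt] at h1
      exact h1
    · intro h k hk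
      rw [Bool.not_eq_true', decide_eq_false_iff_not, outs_eq hp hinc (List.mem_range.1 hk), not_lt]
      exact h _
  rw [hok]
  constructor
  · intro h
    have hd := det_pos hp hinc
    set L := st p c n (r * n) with hL
    refine ⟨fun j => ∑ i : Fin r, if fn L i = j then cf p (fn L) c i / (MI p (fn L)).det else 0,
      fun j => Finset.sum_nonneg fun i _ => ?_, ?_⟩
    · split_ifs
      · exact div_nonneg (h i) hd.le
      · exact le_refl _
    · have h1 := cf_sum p (fn L) c
      have h2 : c = ∑ i : Fin r, (cf p (fn L) c i / (MI p (fn L)).det) • p (fn L i) := by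
        have h3 : c = ((MI p (fn L)).det)⁻¹ • ∑ i : Fin r, cf p (fn L) c i • p (fn L i) := by
          rw [h1, smul_smul, inv_mul_cancel₀ hd.ne', one_smul]
        conv_lhs => rw [h3]
        rw [Finset.smul_sum]
        refine Finset.sum_congr rfl fun i _ => ?_
        rw [smul_smul]
        congr 1
        ring
      conv_lhs => rw [h2]
      simp only [Finset.sum_smul]
      rw [Finset.sum_comm]
      refine Finset.sum_congr rfl fun i _ => ?_
      rw [Finset.sum_eq_single (⟨fn L i, hinc.lt i i.2⟩ : Fin n)]
      · simp
      · intro b _ hb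
        rw [if_neg, zero_smul]
        intro h3
        exact hb (Fin.ext h3.symm)
      · intro h3
        exact absurd (Finset.mem_univ _) h3
  · rintro ⟨x, hx, hc⟩
    obtain ⟨J, hJ, z, hz, hcz⟩ := exists_rep hrn hp c x hx hc
    obtain ⟨h1, h2⟩ := st_at hp hJ hz hcz hrn (r * n)
    refine final_nonneg hp h1 hJ h2 hz hcz fun m hm => ?_
    have hfix := st_fixed (p := p) (c := c) hr hrn
    by_contra hneg
    rw [not_le] at hneg
    cases h : (hitL r (outs p c (st p c n (r * n)))).head? with
    | none =>
      have h3 := hit_none h m.2 hm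
      exact h3 ((outs_eq hp hinc m.2).2 hneg)
    | some k =>
      obtain ⟨h3, h4, h5⟩ := hit_lt hp hJ hz hcz h1 h2 h
      have h6 := shift_le hJ h2 h5
      have h7 : (shiftL r k (st p c n (r * n))).getD (r - 1) 0 < n :=
        lt_of_le_of_lt (h6 (r - 1) (by omega)) (hJ.lt (r - 1) (by omega))
      have h8 : nxt r n (st p c n (r * n)) (outs p c (st p c n (r * n))) =
          shiftL r k (st p c n (r * n)) := by
        unfold nxt
        rw [h]
        show clip r n _ _ = _
        unfold clip
        rw [if_pos h7]
      rw [h8] at hfix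
      have h9 := shift_tot (r := r) (L := st p c n (r * n)) h3
      rw [hfix] at h9
      omega

end

end Pool.Agent.U23.TP
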