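import Pool.Agent.U23.LR.Defs
import Pool.Agent.U23.TP.Lst
import Pool.Agent.W920.FC.Defs

/-!
# Cones over Chebyshev systems of vectors: the class and the algorithm
-/

set_option autoImplicit false

namespace Pool.Agent.U23.TP

open Pool.Agent.H558R2 Pool.Agent.H622R3.SM Pool.Agent.W920.FC Pool.Agent.U23.LR

/-- The systems `P x = c`, `x ≥ 0`, for real `r × n` matrices `P`, `1 ≤ r ≤ n`, all of whose
`r × r` minors are positive, and arbitrary real `c`, written as `P x ≥ c`, `-P x ≥ -c`, `x ≥ 0`. -/
def ConeSystem : Pool.Agent.U23.LR.Class := fun m n A b =>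
  ∃ (r : ℕ) (P : ℕ → ℕ → ℝ) (c : ℕ → ℝ), 1 ≤ r ∧ r ≤ n ∧ m = r + r + n ∧
    (∀ f : Fin r → ℕ, StrictMono f → (∀ l, f l < n) →
      0 < (Matrix.of fun (a : Fin r) (i : Fin r) => P a (f i)).det) ∧
    (∀ (i : Fin m) (j : Fin n), A i j = if (i : ℕ) < r then P i j
      else if (i : ℕ) < r + r then - P ((i : ℕ) - r) j else if (i : ℕ) = r + r + j then 1 else 0) ∧
    ∀ i : Fin m, b i = if (i : ℕ) < r then c i else if (i : ℕ) < r + r then - c ((i : ℕ) - r) else 0

/-- The code of a list of columns, for the program `minorProg`. -/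
def code (m n : ℕ) (γ : List ℕ) : List Outcome :=
  (List.range m).flatMap fun j => (List.range (m + (n + n))).map fun k =>
    if γ.getD j 0 = k then some true else none

/-- The query for the minor with the columns `γ`. -/
def qry (m n : ℕ) (γ : List ℕ) : Qry := (minorProg m n (code m n γ) 0, [11])

/-- The columns with the indices `I`, except for the number `k`, which is replaced by the
right-hand side, and unit columns. -/
def gam (m n r : ℕ) (I : List ℕ) (k : ℕ) : List ℕ :=
  (List.range m).map fun j =>
    if j < r then (if j = k then m + (n + n) else m + n + I.getD j 0) else j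

/-- The queries for the coordinates and for the determinant. -/
def qs (m n r : ℕ) (I : List ℕ) : List Qry :=
  (List.range (r + 1)).map fun k => qry m n (gam m n r I k)

/-- The rank. -/
def rk (m n : ℕ) : ℕ := (m - n) / 2

/-- A step. -/
def stp (m n : ℕ) (I : List ℕ) : TT (List ℕ) :=
  bnd (batch (qs m n (rk m n) I)) fun o => ret (nxt (rk m n) n I o)

/-- The computation. -/
def tp (m n : ℕ) : TT Bool :=
  bnd (iter (stp m n) (rk m n * n) (List.range (rk m n))) fun I =>
    bnd (batch (qs m n (rk m n) I)) fun o => ret (okL (rk m n) o)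

end Pool.Agent.U23.TP
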