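import Mathlib

/-!
# Functionals with prescribed zeros for Chebyshev systems of vectors
-/

set_option autoImplicit false

namespace Pool.Agent.U23.TP

open Finset

/-- All determinants of `r` vectors `p j`, `j < n`, in their order, are positive. -/
def Cheb (r n : ℕ) (p : ℕ → Fin r → ℝ) : Prop :=
  ∀ f : Fin r → ℕ, StrictMono f → (∀ l, f l < n) →
    0 < (Matrix.of fun (a : Fin r) (i : Fin r) => p (f i) a).det

lemma det_cols {r : ℕ} (p : ℕ → Fin r → ℝ) (f : Fin r → ℕ) :
    (Matrix.of fun (a : Fin r) (i : Fin r) => p (f i) a).det =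
      Matrix.detRowAlternating (fun l => p (f l)) := by
  rw [← Matrix.det_transpose]
  rfl

/-- an initial segment -/
lemma seg {s : ℕ} {g : Fin s → ℕ} (hg : StrictMono g) (j : ℕ) (l : Fin s) :
    g l < j ↔ (l : ℕ) < (univ.filter fun l => g l < j).card := by
  constructor
  · intro h
    have h1 : Finset.Iic l ⊆ univ.filter fun l => g l < j := by
      intro x hx
      rw [Finset.mem_Iic] at hx
      exact Finset.mem_filter.2 ⟨Finset.mem_univ _, (hg.monotone hx).trans_lt h⟩
    have h2 := Finset.card_le_card h1
    rw [Fin.card_Iic] at h2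
    omega
  · intro h
    by_contra hc
    have h1 : (univ.filter fun l => g l < j) ⊆ Finset.Iio l := by
      intro x hx
      rw [Finset.mem_filter] at hx
      rw [Finset.mem_Iio]
      by_contra hlx
      exact hc ((hg.monotone (not_lt.1 hlx)).trans_lt hx.2)
    have h2 := Finset.card_le_card h1
    rw [Fin.card_Iio] at h2
    omega

/-- the functional which vanishes at `s` given vectors -/
theorem exists_fct {s n : ℕ} {p : ℕ → Fin (s + 1) → ℝ} (hp : Cheb (s + 1) n p) (G : Finset ℕ)
    (hG : G.card = s) (hn : ∀ x ∈ G, x < n) :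
    ∃ ψ : (Fin (s + 1) → ℝ) →ₗ[ℝ] ℝ, (∀ x ∈ G, ψ (p x) = 0) ∧
      ∀ j < n, j ∉ G → 0 < (-1 : ℝ) ^ (G.filter fun x => x < j).card * ψ (p j) := by
  classical
  set g : Fin s → ℕ := fun l => G.orderEmbOfFin hG l with hgdef
  have hg : StrictMono g := fun a b h => (G.orderEmbOfFin hG).strictMono h
  have hgm : ∀ l, g l ∈ G := fun l => Finset.orderEmbOfFin_mem G hG l
  have hgr : ∀ x ∈ G, ∃ l, g l = x := by
    intro x hx
    have h1 : x ∈ Set.range (G.orderEmbOfFin hG) := by
      rw [Finset.range_orderEmbOfFin]
      exact hx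
    exact h1
  let ψ : (Fin (s + 1) → ℝ) →ₗ[ℝ] ℝ :=
    { toFun := fun w => Matrix.detRowAlternating (Matrix.vecCons w fun l => p (g l))
      map_add' := fun x y => AlternatingMap.map_vecCons_add _ _ _ _
      map_smul' := fun c x => AlternatingMap.map_vecCons_smul _ _ _ _ }
  refine ⟨ψ, fun x hx => ?_, fun j hj hjG => ?_⟩
  · obtain ⟨l, rfl⟩ := hgr x hx
    show Matrix.detRowAlternating (Matrix.vecCons (p (g l)) fun l => p (g l)) = 0
    refine AlternatingMap.map_eq_zero_of_eq _ _ (i := 0) (j := l.succ) ?_ (Fin.succ_ne_zero l).symm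
    simp
  · set k := (univ.filter fun l => g l < j).card with hk
    have hks : k ≤ s := by
      have := Finset.card_le_univ (univ.filter fun l => g l < j)
      simpa using this
    have hcard : (G.filter fun x => x < j).card = k := by
      rw [hk]
      symm
      refine Finset.card_bij (fun l _ => g l) ?_ ?_ ?_
      · intro l hl
        exact Finset.mem_filter.2 ⟨hgm l, (Finset.mem_filter.1 hl).2⟩
      · intro a _ b _ h
        exact hg.injective h
      · intro x hx
        obtain ⟨l, rfl⟩ := hgr x (Finset.mem_filter.1 hx).1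
        exact ⟨l, Finset.mem_filter.2 ⟨Finset.mem_univ _, (Finset.mem_filter.1 hx).2⟩, rfl⟩
    rw [hcard]
    let K : Fin (s + 1) := ⟨k, by omega⟩
    have hne : ∀ l, g l ≠ j := fun l h => hjG (h ▸ hgm l)
    set f : Fin (s + 1) → ℕ := K.insertNth j g with hf
    have hfm : StrictMono f := by
      intro a b hab
      rcases Fin.eq_self_or_eq_succAbove K a with ha | ⟨a', ha⟩ <;>
      rcases Fin.eq_self_or_eq_succAbove K b with hb | ⟨b', hb⟩
      · rw [ha, hb] at hab
        exact absurd hab (lt_irrefl _)
      · rw [ha, hb] at hab ⊢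
        rw [hf, Fin.insertNth_apply_same, Fin.insertNth_apply_succAbove]
        have h1 : ¬ g b' < j := by
          rw [seg hg j b']
          have h2 := (Fin.lt_succAbove_iff_le_castSucc K b').1 hab
          have h3 : k ≤ (b' : ℕ) := h2
          rw [← hk]
          omega
        exact lt_of_le_of_ne (not_lt.1 h1) (hne b').symm
      · rw [ha, hb] at hab ⊢
        rw [hf, Fin.insertNth_apply_same, Fin.insertNth_apply_succAbove]
        rw [seg hg j a']
        have h2 := (Fin.succAbove_lt_iff_castSucc_lt K a').1 hab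
        have h3 : (a' : ℕ) < k := h2
        rw [← hk]
        exact h3
      · rw [ha, hb] at hab ⊢
        rw [hf, Fin.insertNth_apply_succAbove, Fin.insertNth_apply_succAbove]
        exact hg ((Fin.strictMono_succAbove K).lt_iff_lt.1 hab)
    have hfn : ∀ l, f l < n := by
      intro l
      rcases Fin.eq_self_or_eq_succAbove K l with ha | ⟨a', ha⟩
      · rw [ha, hf, Fin.insertNth_apply_same]
        exact hj
      · rw [ha, hf, Fin.insertNth_apply_succAbove]
        exact hn _ (hgm _)
    have h1 := hp f hfm hfn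
    rw [det_cols] at h1
    have h2 : (fun l => p (f l)) = K.insertNth (α := fun _ => Fin (s + 1) → ℝ) (p j) fun l => p (g l) := by
      funext l
      rcases Fin.eq_self_or_eq_succAbove K l with ha | ⟨a', ha⟩
      · rw [ha, hf, Fin.insertNth_apply_same, Fin.insertNth_apply_same]
      · rw [ha, hf, Fin.insertNth_apply_succAbove, Fin.insertNth_apply_succAbove]
    rw [h2, AlternatingMap.map_insertNth] at h1
    have h3 : ψ (p j) = Matrix.detRowAlternating (Matrix.vecCons (p j) fun l => p (g l)) := rfl
    rw [h3]
    simpa [K] using h1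

end Pool.Agent.U23.TP
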