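import Pool.Agent.U23.TP.Cf

/-!
# The pivot rule stays below every admissible representation
-/

set_option autoImplicit false

namespace Pool.Agent.U23.TP

open Finset

section
variable {r n : ℕ} {p : ℕ → Fin r → ℝ} (hp : Cheb r n p) {I J : ℕ → ℕ} (hI : AT r n I)
  (hJ : AT r n J) (hle : ∀ l < r, I l ≤ J l) {z : Fin r → ℝ} (hz : ∀ l, 0 ≤ z l)
  {c : Fin r → ℝ} (hc : c = ∑ l : Fin r, z l • p (J l))

include hp hI hJ hle hz hc

/-- If the left coordinate number `k` is negative, and the left coordinates with greater numbers
are not, then the element number `k` of every admissible representation is greater. -/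
theorem step_lt (k : Fin r) (hk : (r - k) % 2 = 0) (hneg : cf p I c k < 0)
    (hoth : ∀ m : Fin r, k < m → (r - m) % 2 = 0 → 0 ≤ cf p I c m) : I k < J k := by
  classical
  by_contra hcon
  have hkk : I k = J k := le_antisymm (hle k k.2) (not_lt.1 hcon)
  have hck : cf p I c k = ∑ l : Fin r, z l * cf p I (p (J l)) k := by
    rw [hc, cf_lin]
  by_cases hA : ∀ l < r, (k : ℕ) < l → ∃ l' < r, I l' = J l
  · have h1 : 0 ≤ cf p I c k := by
      rw [hck]
      refine Finset.sum_nonneg fun l _ => mul_nonneg (hz l) ?_
      rcases Nat.lt_or_ge (k : ℕ) (l : ℕ) with h | h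
      · obtain ⟨l', hl', h2⟩ := hA l l.2 h
        have h3 := cf_self p I ⟨l', hl'⟩ k
        simp only at h3
        rw [← h2, h3]
        split_ifs
        · exact (det_pos hp hI.toInc).le
        · exact le_refl _
      · refine cf_left_nonneg hp hI k hk (hJ.lt l l.2) ?_
        rw [hkk]
        rcases Nat.lt_or_ge (l : ℕ) (k : ℕ) with h2 | h2
        · exact (hJ.toInc.lt_lt h2 k.2).le
        · rw [show (l : ℕ) = k by omega]
    linarith
  · push Not at hA
    -- the greatest element of `J` not in `I`
    obtain ⟨e, he, hmax⟩ : ∃ e, (e < r ∧ (k : ℕ) < e ∧ ∀ l' < r, I l' ≠ J e) ∧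
        ∀ l, (l < r ∧ (k : ℕ) < l ∧ ∀ l' < r, I l' ≠ J l) → l ≤ e := by
      obtain ⟨l0, h1, h2, h3⟩ := hA
      have hmem : ∀ l, l ∈ ((range r).filter fun l => (k : ℕ) < l ∧ ∀ l' < r, I l' ≠ J l) ↔
          l < r ∧ (k : ℕ) < l ∧ ∀ l' < r, I l' ≠ J l := by
        intro l
        rw [Finset.mem_filter, Finset.mem_range]
      generalize ((range r).filter fun l => (k : ℕ) < l ∧ ∀ l' < r, I l' ≠ J l) = S at hmem
      have hne : S.Nonempty := ⟨l0, (hmem l0).2 ⟨h1, h2, h3⟩⟩
      exact ⟨S.max' hne, (hmem _).1 (Finset.max'_mem S hne), fun l hl =>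
        Finset.le_max' S l ((hmem l).2 hl)⟩
    obtain ⟨her, hke, heI⟩ := he
    -- the first difference after `k`
    have hex : ∃ m, (k : ℕ) < m ∧ m < r ∧ I m < J m :=
      ⟨e, hke, her, lt_of_le_of_ne (hle e her) (heI e her)⟩
    set m := Nat.find hex with hm
    obtain ⟨hkm, hmr, hmlt⟩ : (k : ℕ) < m ∧ m < r ∧ I m < J m := Nat.find_spec hex
    have hmmin : ∀ l, (k : ℕ) < l → l < m → I l = J l := by
      intro l h1 h2
      have h3 := Nat.find_min hex h2
      have h4 := hle l (by omega)
      by_contra h5
      exact h3 ⟨h1, by omega, lt_of_le_of_ne h4 h5⟩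
    have hme : m ≤ e := by
      by_contra h1
      have := hmmin e hke (by omega)
      exact heI e her this
    have hmleft : (r - m) % 2 = 0 := by
      by_contra h1
      have h2 : (r - (m - 1)) % 2 = 0 := by omega
      have h3 := hI.pair (m - 1) (by omega) h2
      have h4 := hJ.pair (m - 1) (by omega) h2
      rw [show m - 1 + 1 = m by omega] at h3 h4
      have h5 : I (m - 1) = J (m - 1) := by
        rcases Nat.lt_or_ge (k : ℕ) (m - 1) with h6 | h6
        · exact hmmin (m - 1) h6 (by omega)
        · rw [show m - 1 = (k : ℕ) by omega]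
          exact hkk
      omega
    obtain ⟨s, rfl⟩ : ∃ s, r = s + 1 := ⟨r - 1, by omega⟩
    set R := ((range (s + 1)).erase (k : ℕ)).erase m with hR
    have hRsub : R ⊆ range (s + 1) :=
      (Finset.erase_subset _ _).trans (Finset.erase_subset _ _)
    have hmR : m ∈ (range (s + 1)).erase (k : ℕ) :=
      Finset.mem_erase.2 ⟨by omega, Finset.mem_range.2 hmr⟩
    have hRmem : ∀ l, l ∈ R ↔ l ≠ m ∧ l ≠ k ∧ l < s + 1 := by
      intro l
      rw [hR, Finset.mem_erase, Finset.mem_erase, Finset.mem_range]
    set G := insert (J e) (R.image I) with hG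
    have heG : J e ∉ R.image I := by
      intro h1
      obtain ⟨l, hl, h2⟩ := Finset.mem_image.1 h1
      exact heI l ((hRmem l).1 hl).2.2 h2
    have hGcard : G.card = s := by
      rw [hG, Finset.card_insert_of_notMem heG, Finset.card_image_of_injOn]
      · rw [hR, Finset.card_erase_of_mem hmR, Finset.card_erase_of_mem (Finset.mem_range.2 k.2),
          Finset.card_range]
        omega
      · intro a ha b hb hab
        exact hI.toInc.inj (Finset.mem_range.1 (hRsub ha)) (Finset.mem_range.1 (hRsub hb)) hab
    have hGlt : ∀ x ∈ G, x < n := by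
      intro x hx
      rw [hG, Finset.mem_insert] at hx
      rcases hx with rfl | hx
      · exact hJ.lt e her
      · obtain ⟨l, hl, rfl⟩ := Finset.mem_image.1 hx
        exact hI.lt l (Finset.mem_range.1 (hRsub hl))
    obtain ⟨ψ, h1, h2⟩ := exists_fct hp G hGcard hGlt
    have hcG : ∀ x, (G.filter fun y => y < x).card =
        cnt R I x + if J e < x then 1 else 0 := by
      intro x
      rw [hG, Finset.filter_insert]
      split_ifs with h3
      · rw [Finset.card_insert_of_notMem (fun h => heG (Finset.mem_filter.1 h).1),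
          cnt_image hI.toInc hRsub]
      · rw [cnt_image hI.toInc hRsub, add_zero]
    have hcR : ∀ x, cnt R I x + ((if I m < x then 1 else 0) + if I k < x then 1 else 0) =
        cnt (range (s + 1)) I x := by
      intro x
      have h3 := cnt_erase (range (s + 1)) I x k (Finset.mem_range.2 k.2)
      have h4 := cnt_erase ((range (s + 1)).erase (k : ℕ)) I x m hmR
      rw [← hR] at h4
      omega
    have hIkm : I k < I m := hI.toInc.lt_lt hkm hmr
    have hIme : I m < J e := by
      rcases Nat.lt_or_ge m e with h3 | h3
      · exact hmlt.trans (hJ.toInc.lt_lt h3 her)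
      · rwa [show e = m by omega]
    -- signs
    have hsk : 0 < (-1 : ℝ) ^ (k : ℕ) * ψ (p (I k)) := by
      have h3 := h2 (I k) (hI.lt k k.2) (by
        intro h4
        rw [hG, Finset.mem_insert] at h4
        rcases h4 with h4 | h4
        · omega
        · obtain ⟨l, hl, h5⟩ := Finset.mem_image.1 h4
          exact ((hRmem l).1 hl).2.1 (hI.toInc.inj ((hRmem l).1 hl).2.2 k.2 h5))
      have h4 := hcR (I k)
      rw [cnt_self hI.toInc k.2, if_neg (by omega), if_neg (by omega)] at h4
      rw [hcG, if_neg (by omega)] at h3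
      rwa [show cnt R I (I k) + 0 = (k : ℕ) by omega] at h3
    have hsm : (-1 : ℝ) ^ (k : ℕ) * ψ (p (I m)) < 0 := by
      have h3 := h2 (I m) (hI.lt m hmr) (by
        intro h4
        rw [hG, Finset.mem_insert] at h4
        rcases h4 with h4 | h4
        · omega
        · obtain ⟨l, hl, h5⟩ := Finset.mem_image.1 h4
          exact ((hRmem l).1 hl).1 (hI.toInc.inj ((hRmem l).1 hl).2.2 hmr h5))
      have h4 := hcR (I m)
      rw [cnt_self hI.toInc hmr, if_neg (by omega), if_pos hIkm] at h4
      rw [hcG, if_neg (by omega), neg_one_pow_parity (b := (k : ℕ) + 1) (by omega), pow_succ] at h3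
      linarith
    have hsc : 0 ≤ (-1 : ℝ) ^ (k : ℕ) * ψ c := by
      rw [hc, map_sum, Finset.mul_sum]
      refine Finset.sum_nonneg fun l _ => ?_
      rw [map_smul, smul_eq_mul, mul_left_comm]
      refine mul_nonneg (hz l) ?_
      by_cases hlG : J l ∈ G
      · rw [h1 _ hlG, mul_zero]
      · have h3 := h2 (J l) (hJ.lt l l.2) hlG
        rw [hcG] at h3
        have hnG : ∀ l', l' < s + 1 → l' ≠ k → l' ≠ m → I l' ≠ J l := by
          intro l' h4 h5 h6 h7
          exact hlG (by
            rw [hG, Finset.mem_insert]
            exact Or.inr (Finset.mem_image.2 ⟨l', (hRmem l').2 ⟨h6, h5, h4⟩, h7⟩))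
        have h4 := hcR (J l)
        rcases lt_trichotomy (l : ℕ) (k : ℕ) with h5 | h5 | h5
        · have h6 := hJ.toInc.lt_lt h5 k.2
          have h7 : (s + 1 - cnt (range (s + 1)) I (J l)) % 2 = 0 := by
            refine hI.parity fun l' hl' h8 => ?_
            rcases eq_or_ne l' (k : ℕ) with h9 | h9
            · subst h9
              omega
            · rcases eq_or_ne l' m with h10 | h10
              · subst h10
                omega
              · exact hnG l' hl' h9 h10 h8
          rw [if_neg (by omega), if_neg (by omega)] at h4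
          have h8 : cnt (range (s + 1)) I (J l) ≤ s + 1 := by
            have := cnt_le (range (s + 1)) I (J l)
            rwa [Finset.card_range] at this
          rw [if_neg (by omega), neg_one_pow_parity (b := (k : ℕ)) (by omega)] at h3
          exact h3.le
        · have h6 : J l = I k := by rw [hkk, h5]
          rw [h6]
          exact hsk.le
        · rcases Nat.lt_or_ge (l : ℕ) m with h6 | h6
          · exact absurd (hmmin l h5 h6) (hnG l l.2 (by omega) (by omega))
          · have h7 : I m < J l := by
              rcases Nat.lt_or_ge m (l : ℕ) with h8 | h8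
              · exact hmlt.trans (hJ.toInc.lt_lt h8 l.2)
              · rwa [show (l : ℕ) = m by omega]
            have h8 : ∀ l' < s + 1, I l' ≠ J l := by
              intro l' hl' h8
              rcases eq_or_ne l' (k : ℕ) with h9 | h9
              · subst h9
                omega
              · rcases eq_or_ne l' m with h10 | h10
                · rw [h10] at h8
                  omega
                · exact hnG l' hl' h9 h10 h8
            have h9 := hmax l ⟨l.2, h5, h8⟩
            have h10 : (l : ℕ) ≠ e := by
              intro h11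
              apply hlG
              rw [hG, Finset.mem_insert, h11]
              exact Or.inl rfl
            have h11 : J l < J e := hJ.toInc.lt_lt (by omega) her
            have h12 := hI.parity h8
            rw [if_pos h7, if_pos (by omega)] at h4
            rw [if_neg (by omega), neg_one_pow_parity (b := (k : ℕ)) (by
              have := cnt_le (range (s + 1)) I (J l)
              rw [Finset.card_range] at this
              omega)] at h3
            exact h3.le
    -- the combination
    have h3 := cf_fct p I c ψ
    rw [← Finset.add_sum_erase _ _ (Finset.mem_univ k),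
      ← Finset.add_sum_erase _ _ (Finset.mem_erase.2 ⟨(by
        intro h4
        have := congrArg Fin.val h4
        simp only at this
        omega : (⟨m, hmr⟩ : Fin (s + 1)) ≠ k), Finset.mem_univ _⟩),
      Finset.sum_eq_zero (s := (Finset.univ.erase k).erase ⟨m, hmr⟩)] at h3
    · have hd := det_pos hp hI.toInc
      have h4 := hoth ⟨m, hmr⟩ hkm hmleft
      simp only at h3
      have h5 : cf p I c k * ((-1 : ℝ) ^ (k : ℕ) * ψ (p (I k))) +
          cf p I c ⟨m, hmr⟩ * ((-1 : ℝ) ^ (k : ℕ) * ψ (p (I m))) =
          (MI p I).det * ((-1 : ℝ) ^ (k : ℕ) * ψ c) := by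
        linear_combination ((-1 : ℝ) ^ (k : ℕ)) * h3
      have h6 := mul_nonneg hd.le hsc
      have h7 : cf p I c ⟨m, hmr⟩ * ((-1 : ℝ) ^ (k : ℕ) * ψ (p (I m))) ≤ 0 :=
        mul_nonpos_of_nonneg_of_nonpos h4 hsm.le
      have h8 := mul_neg_of_neg_of_pos hneg hsk
      linarith
    · intro l hl
      rw [Finset.mem_erase, Finset.mem_erase] at hl
      rw [h1 (I l), mul_zero]
      rw [hG, Finset.mem_insert]
      refine Or.inr (Finset.mem_image.2 ⟨l, (hRmem l).2 ⟨fun h4 => hl.1 (Fin.ext h4),
        fun h4 => hl.2.1 (Fin.ext h4), l.2⟩, rfl⟩)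

/-- If no left coordinate is negative, then no coordinate is negative. -/
theorem final_nonneg (hleft : ∀ m : Fin r, (r - m) % 2 = 0 → 0 ≤ cf p I c m) (i : Fin r) :
    0 ≤ cf p I c i := by
  classical
  have hci : ∀ i, cf p I c i = ∑ l : Fin r, z l * cf p I (p (J l)) i := by
    intro i
    rw [hc, cf_lin]
  have hkey : ∀ l : Fin r, z l = 0 ∨ ∃ l' < r, I l' = J l := by
    by_cases hall : ∀ l < r, I l = J l
    · exact fun l => Or.inr ⟨l, l.2, hall l l.2⟩
    · push Not at hall
      have hex : ∃ q, q < r ∧ I q ≠ J q := by
        obtain ⟨q, h1, h2⟩ := hall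
        exact ⟨q, h1, h2⟩
      set q := Nat.find hex with hq
      obtain ⟨hqr, hqne⟩ : q < r ∧ I q ≠ J q := Nat.find_spec hex
      have hmin : ∀ l < q, I l = J l := by
        intro l h1
        by_contra h2
        exact Nat.find_min hex h1 ⟨by omega, h2⟩
      have hqlt : I q < J q := lt_of_le_of_ne (hle q hqr) hqne
      have hqleft : (r - q) % 2 = 0 := by
        by_contra h1
        rcases Nat.eq_zero_or_pos q with h2 | h2
        · have h3 : r % 2 = 1 := by omega
          have h4 := hI.zero h3
          have h5 := hJ.zero h3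
          rw [h2] at hqne
          omega
        · have h3 := hI.pair (q - 1) (by omega) (by omega)
          have h4 := hJ.pair (q - 1) (by omega) (by omega)
          rw [show q - 1 + 1 = q by omega] at h3 h4
          have h5 := hmin (q - 1) (by omega)
          omega
      have h1 := hleft ⟨q, hqr⟩ hqleft
      rw [hci] at h1
      have hterm : ∀ l : Fin r, z l * cf p I (p (J l)) ⟨q, hqr⟩ ≤ 0 := by
        intro l
        refine mul_nonpos_of_nonneg_of_nonpos (hz l) ?_
        rcases Nat.lt_or_ge (l : ℕ) q with h2 | h2
        · have h3 := cf_self p I l ⟨q, hqr⟩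
          rw [← hmin l h2, h3, if_neg]
          intro h4
          have := congrArg Fin.val h4
          simp only at this
          omega
        · refine cf_left_nonpos hp hI ⟨q, hqr⟩ hqleft (hJ.lt l l.2) ?_
          show I q < J l
          rcases Nat.lt_or_ge q (l : ℕ) with h3 | h3
          · exact hqlt.trans (hJ.toInc.lt_lt h3 l.2)
          · rwa [show (l : ℕ) = q by omega]
      have hzero : ∀ l : Fin r, z l * cf p I (p (J l)) ⟨q, hqr⟩ = 0 := by
        have h2 := (Finset.sum_eq_zero_iff_of_nonpos (fun l _ => hterm l)).1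
          (le_antisymm (Finset.sum_nonpos fun l _ => hterm l) h1)
        exact fun l => h2 l (Finset.mem_univ l)
      intro l
      rcases Nat.lt_or_ge (l : ℕ) q with h2 | h2
      · exact Or.inr ⟨l, l.2, hmin l h2⟩
      · by_cases h3 : ∃ l' < r, I l' = J l
        · exact Or.inr h3
        · push Not at h3
          left
          have h4 : I q < J l := by
            rcases Nat.lt_or_ge q (l : ℕ) with h3 | h3
            · exact hqlt.trans (hJ.toInc.lt_lt h3 l.2)
            · rwa [show (l : ℕ) = q by omega]
          have h5 := cf_left_neg hp hI ⟨q, hqr⟩ hqleft (hJ.lt l l.2) h4 h3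
          rcases mul_eq_zero.1 (hzero l) with h6 | h6
          · exact h6
          · exact absurd h6 h5.ne
  rw [hci]
  refine Finset.sum_nonneg fun l _ => ?_
  rcases hkey l with h1 | ⟨l', hl', h1⟩
  · rw [h1, zero_mul]
  · refine mul_nonneg (hz l) ?_
    have h3 := cf_self p I ⟨l', hl'⟩ i
    simp only at h3
    rw [← h1, h3]
    split_ifs
    · exact (det_pos hp hI.toInc).le
    · exact le_refl _

end

end Pool.Agent.U23.TP
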